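import Pool.Agent.H183.MU.Stm
import Pool.Graph.R_seed8.Y346.SG.OCM

/-!
The final assembly.
-/

set_option autoImplicit false

namespace Pool.Agent.H183.MU.FIN

open Finset Filter Topology

/-- a large prime factor -/
def Big (K n : ℕ) : Prop := ∃ p : ℕ, p.Prime ∧ p ∣ n ∧ 2 * n ^ (K - 3) ≤ p ^ (K - 2)

theorem big_mono {K m n : ℕ} (hm : 3 ≤ m) (hmK : m ≤ K) (hn : 2 ≤ n) (h : Big K n) : Big m n := by
  obtain ⟨p, hp, hpn, hb⟩ := h
  refine ⟨p, hp, hpn, ?_⟩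
  have hle : p ≤ n := Nat.le_of_dvd (by omega) hpn
  have e1 : p ^ (K - 2) = p ^ (m - 2) * p ^ (K - m) := by
    rw [← pow_add]
    congr 1
    omega
  have e2 : n ^ (K - 3) = n ^ (m - 3) * n ^ (K - m) := by
    rw [← pow_add]
    congr 1
    omega
  have h1 : p ^ (K - m) ≤ n ^ (K - m) := Nat.pow_le_pow_left hle _
  have h2 : 0 < n ^ (K - m) := pow_pos (by omega) _
  rw [e1, e2] at hb
  have h3 : (2 * n ^ (m - 3)) * n ^ (K - m) ≤ p ^ (m - 2) * n ^ (K - m) := by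
    calc (2 * n ^ (m - 3)) * n ^ (K - m) = 2 * (n ^ (m - 3) * n ^ (K - m)) := by ring
      _ ≤ p ^ (m - 2) * p ^ (K - m) := hb
      _ ≤ p ^ (m - 2) * n ^ (K - m) := Nat.mul_le_mul_left _ h1
  exact Nat.le_of_mul_le_mul_right h3 h2

theorem hasSinger_of {n m : ℕ} (h : HasAb n m) : Pool.Agent.H771R2.SingerDS.HasSinger n m := by
  obtain ⟨G, i1, i2, i3, D, h1, h2, h3⟩ := h
  exact ⟨G, inferInstance, i2, i3, D, h1, h2, h3⟩

theorem log_small (C δ : ℝ) (hC : 0 < C) (hδ : 0 < δ) : ∃ X₀ : ℕ, ∀ X : ℕ, X₀ ≤ X →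
    C * X * (Real.log X) ^ ((1 / 2 : ℝ) - 1) ≤ δ * X := by
  have h1 : Tendsto (fun X : ℕ => (Real.log X) ^ (-(1 / 2) : ℝ)) atTop (𝓝 0) :=
    (tendsto_rpow_neg_atTop (by norm_num : (0 : ℝ) < 1 / 2)).comp
      (Real.tendsto_log_atTop.comp tendsto_natCast_atTop_atTop)
  have h2 := h1.eventually (gt_mem_nhds (show (0 : ℝ) < δ / C by positivity))
  obtain ⟨X₀, hX₀⟩ := eventually_atTop.1 h2
  refine ⟨X₀, fun X hX => ?_⟩
  have h3 := hX₀ X hX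
  have e : ((1 / 2 : ℝ) - 1) = -(1 / 2) := by norm_num
  rw [e]
  have h4 : C * (Real.log X) ^ (-(1 / 2) : ℝ) ≤ δ := by
    have := (lt_div_iff₀ hC).1 h3
    rw [mul_comm]
    exact this.le
  calc C * X * (Real.log X) ^ (-(1 / 2) : ℝ) = (C * (Real.log X) ^ (-(1 / 2) : ℝ)) * X := by ring
    _ ≤ δ * X := mul_le_mul_of_nonneg_right h4 (Nat.cast_nonneg X)

end Pool.Agent.H183.MU.FIN

namespace Pool.Agent.H183.MU

open Finset FIN

theorem t_FIN (h1 : S_ALM) (h2 : S_MER) : S_FIN := by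
  classical
  intro K hK ε hε
  obtain ⟨C, hC, hodd⟩ := Pool.Agent.Y346.SG.singer_count_le K (1 / 2) (by norm_num)
  obtain ⟨Xo, hXo⟩ := log_small C (ε / 4) hC (by positivity)
  have hKr : (0 : ℝ) < (K : ℝ) + 1 := by positivity
  have hev : ∀ m : ℕ, ∃ X₀ : ℕ, ∀ X : ℕ, X₀ ≤ X → 4 ≤ m → Even m →
      (({n : ℕ | 2 ≤ n ∧ n ≤ X ∧ Big m n ∧ HasAb n m}.ncard : ℕ) : ℝ) ≤
        ε / (4 * ((K : ℝ) + 1)) * X := by
    intro m
    by_cases hm : 4 ≤ m ∧ Even m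
    · obtain ⟨X₀, hX₀⟩ := h1 m hm.1 hm.2 (ε / (4 * ((K : ℝ) + 1))) (by positivity)
      exact ⟨X₀, fun X hX _ _ => hX₀ X hX⟩
    · exact ⟨0, fun X _ h3 h4 => absurd ⟨h3, h4⟩ hm⟩
  choose Y hY using hev
  obtain ⟨Xm, hXm⟩ := h2 K hK (ε / 2) (by positivity)
  have key : ∀ X : ℕ, 3 + Xo + ∑ m ∈ range (K + 1), Y m ≤ X →
      (({n : ℕ | 2 ≤ n ∧ n ≤ X ∧ Big K n ∧
        ∃ m : ℕ, 3 ≤ m ∧ (m ≤ K ∨ (Odd m ∧ m.minFac ≤ K)) ∧ HasAb n m}.ncard : ℕ) : ℝ) ≤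
        ε / 2 * X := by
    intro X hX
    set O : Set ℕ := {n : ℕ | 2 ≤ n ∧ n ≤ X ∧ ∃ m : ℕ, Odd m ∧ 3 ≤ m ∧ m.minFac ≤ K ∧
      Pool.Agent.H771R2.SingerDS.HasSinger n m} with hO
    set Ev : ℕ → Set ℕ := fun m => {n : ℕ | 2 ≤ n ∧ n ≤ X ∧ Big m n ∧ HasAb n m} with hEv
    set I : Finset ℕ := (range (K + 1)).filter (fun m => 4 ≤ m ∧ Even m) with hI
    have hOf : O.Finite := (Set.finite_Iic X).subset fun n hn => hn.2.1
    have hEf : ∀ m, (Ev m).Finite := fun m => (Set.finite_Iic X).subset fun n hn => hn.2.1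
    have hUf : (⋃ m ∈ I, Ev m).Finite := I.finite_toSet.biUnion fun m _ => hEf m
    have hsub : {n : ℕ | 2 ≤ n ∧ n ≤ X ∧ Big K n ∧
        ∃ m : ℕ, 3 ≤ m ∧ (m ≤ K ∨ (Odd m ∧ m.minFac ≤ K)) ∧ HasAb n m} ⊆ O ∪ ⋃ m ∈ I, Ev m := by
      rintro n ⟨hn2, hnX, hb, m, hm3, hmK, hD⟩
      rcases Nat.even_or_odd m with he | ho
      · right
        have hmK' : m ≤ K := by
          rcases hmK with h | h
          · exact h
          · exact absurd he (Nat.not_even_iff_odd.2 h.1)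
        have hm4 : 4 ≤ m := by
          rcases he with ⟨c, hc⟩
          omega
        simp only [Set.mem_iUnion]
        refine ⟨m, ?_, hn2, hnX, big_mono hm3 hmK' hn2 hb, hD⟩
        rw [hI, mem_filter, mem_range]
        exact ⟨by omega, hm4, he⟩
      · left
        refine ⟨hn2, hnX, m, ho, hm3, ?_, hasSinger_of hD⟩
        rcases hmK with h | h
        · exact (Nat.minFac_le (by omega)).trans h
        · exact h.2
    have hc1 : ({n : ℕ | 2 ≤ n ∧ n ≤ X ∧ Big K n ∧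
        ∃ m : ℕ, 3 ≤ m ∧ (m ≤ K ∨ (Odd m ∧ m.minFac ≤ K)) ∧ HasAb n m}).ncard ≤
        O.ncard + ∑ m ∈ I, (Ev m).ncard := by
      refine (Set.ncard_le_ncard hsub (hOf.union hUf)).trans ((Set.ncard_union_le _ _).trans ?_)
      refine Nat.add_le_add_left ?_ _
      clear_value I
      clear hsub hUf hI
      induction I using Finset.induction_on with
      | empty => simp
      | insert a I ha ih =>
        rw [sum_insert ha, Finset.set_biUnion_insert]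
        exact (Set.ncard_union_le _ _).trans (Nat.add_le_add_left ih _)
    have hc2 : ((({n : ℕ | 2 ≤ n ∧ n ≤ X ∧ Big K n ∧
        ∃ m : ℕ, 3 ≤ m ∧ (m ≤ K ∨ (Odd m ∧ m.minFac ≤ K)) ∧ HasAb n m}).ncard : ℕ) : ℝ) ≤
        (O.ncard : ℝ) + ∑ m ∈ I, ((Ev m).ncard : ℝ) := by exact_mod_cast hc1
    have hO1 : (O.ncard : ℝ) ≤ ε / 4 * X :=
      (hodd X (by omega)).trans (hXo X (by omega))
    have hE1 : ∑ m ∈ I, ((Ev m).ncard : ℝ) ≤ ε / 4 * X := by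
      have h3 : ∀ m ∈ I, ((Ev m).ncard : ℝ) ≤ ε / (4 * ((K : ℝ) + 1)) * X := by
        intro m hm
        rw [hI, mem_filter] at hm
        have h4 : Y m ≤ ∑ m ∈ range (K + 1), Y m :=
          single_le_sum (f := Y) (fun _ _ => Nat.zero_le _) hm.1
        exact hY m X (by omega) hm.2.1 hm.2.2
      refine (sum_le_sum h3).trans ?_
      rw [sum_const, nsmul_eq_mul]
      have h5 : (I.card : ℝ) ≤ (K : ℝ) + 1 := by
        have h6 : I.card ≤ K + 1 := (card_filter_le _ _).trans (by rw [card_range])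
        exact_mod_cast h6
      have h6 : (0 : ℝ) ≤ ε / (4 * ((K : ℝ) + 1)) * X := by positivity
      calc (I.card : ℝ) * (ε / (4 * ((K : ℝ) + 1)) * X)
          ≤ ((K : ℝ) + 1) * (ε / (4 * ((K : ℝ) + 1)) * X) := mul_le_mul_of_nonneg_right h5 h6
        _ = ε / 4 * X := by field_simp
    linarith
  refine ⟨3 + Xo + ∑ m ∈ range (K + 1), Y m + Xm, fun X hX => ?_⟩
  have hk := key X (by omega)
  have hX0 : (0 : ℝ) ≤ X := Nat.cast_nonneg X
  refine ⟨?_, ?_⟩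
  · have h3 : ε / 2 * (X : ℝ) ≤ ε * X := by nlinarith
    exact hk.trans h3
  · have hm := hXm X (by omega)
    set A : Set ℕ := {n : ℕ | 2 ≤ n ∧ n ≤ X ∧ Big K n ∧
      ∃ m : ℕ, 3 ≤ m ∧ (m ≤ K ∨ (Odd m ∧ m.minFac ≤ K)) ∧ HasAb n m} with hA
    set Bg : Set ℕ := {n : ℕ | 2 ≤ n ∧ n ≤ X ∧ ∃ p : ℕ, p.Prime ∧ p ∣ n ∧
      2 * n ^ (K - 3) ≤ p ^ (K - 2)} with hBg
    set T : Set ℕ := {n : ℕ | 2 ≤ n ∧ n ≤ X ∧
      ∃ m : ℕ, 3 ≤ m ∧ (m ≤ K ∨ (Odd m ∧ m.minFac ≤ K)) ∧ HasAb n m} with hT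
    have hAf : A.Finite := (Set.finite_Iic X).subset fun n hn => hn.2.1
    have hBf : Bg.Finite := (Set.finite_Iic X).subset fun n hn => hn.2.1
    have hTf : T.Finite := (Set.finite_Iic X).subset fun n hn => hn.2.1
    have h3 : T ⊆ A ∪ (T \ Bg) := by
      intro n hn
      by_cases hb : n ∈ Bg
      · exact Or.inl ⟨hn.1, hn.2.1, hb.2.2, hn.2.2⟩
      · exact Or.inr ⟨hn, hb⟩
    have h4 : T.ncard ≤ A.ncard + (T \ Bg).ncard :=
      (Set.ncard_le_ncard h3 (hAf.union (hTf.sdiff))).trans (Set.ncard_union_le _ _)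
    have h5 : (T \ Bg).ncard + Bg.ncard ≤ X := by
      have hdis : Disjoint (T \ Bg) Bg := Set.disjoint_sdiff_left
      rw [← Set.ncard_union_eq hdis hTf.sdiff hBf]
      have h6 : (T \ Bg) ∪ Bg ⊆ ((Finset.Icc 1 X : Finset ℕ) : Set ℕ) := by
        intro n hn
        rw [Finset.coe_Icc, Set.mem_Icc]
        rcases hn with hn | hn
        · exact ⟨by have := hn.1.1; omega, hn.1.2.1⟩
        · exact ⟨by have := hn.1; omega, hn.2.1⟩
      refine (Set.ncard_le_ncard h6 (Finset.finite_toSet _)).trans ?_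
      rw [Set.ncard_coe_finset, Nat.card_Icc]
      omega
    have h4' : (T.ncard : ℝ) ≤ (A.ncard : ℝ) + ((T \ Bg).ncard : ℝ) := by exact_mod_cast h4
    have h5' : ((T \ Bg).ncard : ℝ) + (Bg.ncard : ℝ) ≤ X := by exact_mod_cast h5
    have hk' : (A.ncard : ℝ) ≤ ε / 2 * X := hk
    have hm' : (Real.log (((K : ℝ) - 2) / ((K : ℝ) - 3)) - ε / 2) * X ≤ (Bg.ncard : ℝ) := hm
    linarith

end Pool.Agent.H183.MU
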