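import Pool.Agent.H183.MU.Stm

/-!
# Project MU (helper183), task FIX (helper665): a translate fixed by the multiplier
-/

set_option autoImplicit false

namespace Pool.Agent.H183.MU

open Finset

namespace FIX

variable {G : Type} [CommGroup G] [Fintype G] [DecidableEq G]

theorem pow_inj {n : ℕ} (hn : Nat.Coprime n (Fintype.card G)) :
    Function.Injective (fun x : G => x ^ n) := by
  have h1 : (Nat.card G).Coprime n := by
    rw [Nat.card_eq_fintype_card]
    exact hn.symm
  exact (powCoprime h1).injective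

theorem pow_surj {n : ℕ} (hn : Nat.Coprime n (Fintype.card G)) :
    Function.Surjective (fun x : G => x ^ n) := by
  have h1 : (Nat.card G).Coprime n := by
    rw [Nat.card_eq_fintype_card]
    exact hn.symm
  exact (powCoprime h1).surjective

theorem translate {D : Finset G} {k lam : ℕ} (hD : IsDS D k lam) (h : G) :
    IsDS (D.image (fun x => h * x)) k lam := by
  obtain ⟨h1, h2⟩ := hD
  refine ⟨by rw [card_image_of_injective _ (mul_right_injective h), h1], fun g hg => ?_⟩
  rw [← h2 g hg]
  symm
  refine card_bij (fun p _ => (h * p.1, h * p.2)) ?_ ?_ ?_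
  · rintro ⟨x, y⟩ hp
    rw [mem_filter, mem_product] at hp ⊢
    refine ⟨⟨mem_image_of_mem _ hp.1.1, mem_image_of_mem _ hp.1.2⟩, ?_⟩
    show h * x * (h * y)⁻¹ = g
    rw [mul_inv_rev, mul_comm y⁻¹ h⁻¹, mul_assoc, mul_comm x, ← mul_assoc, ← mul_assoc,
      mul_inv_cancel, one_mul, mul_comm]
    exact hp.2
  · rintro ⟨x, y⟩ _ ⟨x', y'⟩ _ hxy
    rw [Prod.mk.injEq] at hxy
    have h3 : x = x' := mul_left_cancel hxy.1
    have h4 : y = y' := mul_left_cancel hxy.2
    rw [h3, h4]
  · rintro ⟨x, y⟩ hp
    rw [mem_filter, mem_product] at hp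
    obtain ⟨x', hx', rfl⟩ := mem_image.1 hp.1.1
    obtain ⟨y', hy', rfl⟩ := mem_image.1 hp.1.2
    refine ⟨(x', y'), ?_, rfl⟩
    rw [mem_filter, mem_product]
    refine ⟨⟨hx', hy'⟩, ?_⟩
    have h3 : h * x' * (h * y')⁻¹ = g := hp.2
    rw [mul_inv_rev, mul_comm y'⁻¹ h⁻¹, mul_assoc, mul_comm x', ← mul_assoc, ← mul_assoc,
      mul_inv_cancel, one_mul, mul_comm] at h3
    exact h3

theorem prod_translate (D : Finset G) (h : G) :
    ∏ x ∈ D.image (fun x => h * x), x = h ^ D.card * ∏ x ∈ D, x := by
  rw [prod_image (fun x _ y _ hxy => mul_left_cancel hxy), prod_mul_distrib, prod_const]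

end FIX

theorem t_FIX : S_FIX := by
  intro G _ _ _ D k lam p hD hp hk hpG hg
  obtain ⟨g, hg⟩ := hg
  obtain ⟨h, hh⟩ := FIX.pow_surj (G := G) hk (∏ x ∈ D, x)⁻¹
  have hh' : h ^ k = (∏ x ∈ D, x)⁻¹ := hh
  have hπ : ∏ x ∈ D.image (fun x => h * x), x = 1 := by
    rw [FIX.prod_translate, hD.1, hh', inv_mul_cancel]
  have hcard : (D.image (fun x => h * x)).card = k := (FIX.translate hD h).1
  refine ⟨D.image (fun x => h * x), FIX.translate hD h, ?_⟩
  have h1 : (D.image (fun x => h * x)).image (fun x => x ^ p) =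
      (D.image (fun x => h * x)).image (fun x => (h ^ p * g * h⁻¹) * x) := by
    calc (D.image (fun x => h * x)).image (fun x => x ^ p)
        = (D.image (fun x => x ^ p)).image (fun x => h ^ p * x) := by
          rw [image_image, image_image]
          refine image_congr fun x _ => ?_
          show (h * x) ^ p = h ^ p * x ^ p
          exact mul_pow h x p
      _ = (D.image (fun x => g * x)).image (fun x => h ^ p * x) := by rw [hg]
      _ = (D.image (fun x => h * x)).image (fun x => (h ^ p * g * h⁻¹) * x) := by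
          rw [image_image, image_image]
          refine image_congr fun x _ => ?_
          show h ^ p * (g * x) = h ^ p * g * h⁻¹ * (h * x)
          group
  have h2 : ∏ x ∈ (D.image (fun x => h * x)).image (fun x => x ^ p), x = 1 := by
    rw [prod_image (fun x _ y _ hxy => FIX.pow_inj hpG hxy), prod_pow, hπ, one_pow]
  rw [h1, FIX.prod_translate, hπ, mul_one, hcard] at h2
  have h3 : h ^ p * g * h⁻¹ = 1 := FIX.pow_inj (G := G) hk (by
    show (h ^ p * g * h⁻¹) ^ k = 1 ^ k
    rw [h2, one_pow])
  rw [h1, h3]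
  simp only [one_mul, image_id']

end Pool.Agent.H183.MU
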