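import Pool.Agent.H183.MU.Stm

/-!
Almost all `n` with a large prime factor are excluded for even `m`.
-/

set_option autoImplicit false

namespace Pool.Agent.H183.MU.ALM

open Finset

/-- the set of primes -/
def RR (s L : ℕ) : Set ℕ := {w : ℕ | w.Prime ∧ w % 2 ^ (s + 1) = 1 + 2 ^ s ∧ L ∣ w - 1}

theorem half_eq {s w : ℕ} (hs : 1 ≤ s) (h : w % 2 ^ (s + 1) = 1 + 2 ^ s) :
    ∃ o : ℕ, Odd o ∧ (w - 1) / 2 = 2 ^ (s - 1) * o ∧ w = 2 ^ s * o + 1 := by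
  have h1 := Nat.div_add_mod w (2 ^ (s + 1))
  refine ⟨2 * (w / 2 ^ (s + 1)) + 1, ⟨_, rfl⟩, ?_, ?_⟩
  · have e : 2 ^ (s + 1) = 2 * (2 * 2 ^ (s - 1)) := by
      rw [← pow_succ', ← pow_succ']
      congr 1
      omega
    have e2 : 2 ^ s = 2 * 2 ^ (s - 1) := by
      rw [← pow_succ']
      congr 1
      omega
    rw [h] at h1
    have h2 : w - 1 = 2 * (2 ^ (s - 1) * (2 * (w / 2 ^ (s + 1)) + 1)) := by
      have h3 : 2 * (2 ^ (s - 1) * (2 * (w / 2 ^ (s + 1)) + 1)) =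
          2 ^ (s + 1) * (w / 2 ^ (s + 1)) + 2 ^ s := by
        rw [e2]
        nth_rewrite 2 [e]
        ring
      rw [h3]
      omega
    rw [h2, Nat.mul_div_cancel_left _ (by norm_num)]
  · have e : 2 ^ s * (2 * (w / 2 ^ (s + 1)) + 1) = 2 ^ (s + 1) * (w / 2 ^ (s + 1)) + 2 ^ s := by
      rw [pow_succ]
      ring
    rw [e]
    omega

theorem ne_two {s w : ℕ} (hs : 1 ≤ s) (h : w % 2 ^ (s + 1) = 1 + 2 ^ s) : w ≠ 2 := by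
  obtain ⟨o, ho, -, hw⟩ := half_eq hs h
  intro h2
  have h3 : 2 ∣ 2 ^ s * o := (dvd_pow_self 2 (by omega)).mul_right o
  omega

theorem neg_one_ne {w : ℕ} (hw : w.Prime) (h2 : w ≠ 2) : (-1 : ZMod w) ≠ 1 := by
  intro h
  have : Fact w.Prime := ⟨hw⟩
  have h3 : ((2 : ℕ) : ZMod w) = 0 := by
    push_cast
    linear_combination -h
  rw [ZMod.natCast_eq_zero_iff] at h3
  exact h2 ((Nat.prime_dvd_prime_iff_eq hw Nat.prime_two).1 h3)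

theorem dvd_of_neg_one {w p e : ℕ} (h : (p : ZMod w) ^ e = -1) : w ∣ p ^ e + 1 := by
  rw [← ZMod.natCast_eq_zero_iff]
  push_cast
  rw [h]
  ring

theorem fin_pairs (X : ℕ) (Q : ℕ × ℕ → Prop) :
    ({x : ℕ × ℕ | 1 ≤ x.1 ∧ x.2.Prime ∧ x.1 ≤ x.2 ∧ x.1 * x.2 ≤ X ∧ Q x} : Set (ℕ × ℕ)).Finite := by
  refine Set.Finite.subset (Set.Finite.prod (Set.finite_Iic X) (Set.finite_Iic X)) ?_
  rintro ⟨t, p⟩ ⟨h1, h2, h3, h4, -⟩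
  simp only at h1 h2 h3 h4
  have h5 := h2.pos
  refine ⟨?_, ?_⟩
  · simp only [Set.mem_Iic]
    nlinarith
  · simp only [Set.mem_Iic]
    nlinarith

/-- `p^2 ≥ n` -/
theorem le_sq {n m p : ℕ} (hn : 2 ≤ n) (hm : 4 ≤ m) (h : 2 * n ^ (m - 3) ≤ p ^ (m - 2)) :
    n ≤ p ^ 2 := by
  by_contra hcon
  push Not at hcon
  have h1 : (p ^ 2) ^ (m - 2) < n ^ (m - 2) := Nat.pow_lt_pow_left hcon (by omega)
  have h2 : (p ^ 2) ^ (m - 2) = p ^ (m - 2) * p ^ (m - 2) := by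
    rw [← pow_mul, ← pow_add]
    congr 1
    omega
  have h3 : n ^ (m - 2) ≤ n ^ (m - 3) * n ^ (m - 3) := by
    rw [← pow_add]
    exact Nat.pow_le_pow_right (by omega) (by omega)
  have h4 : (2 * n ^ (m - 3)) * (2 * n ^ (m - 3)) ≤ p ^ (m - 2) * p ^ (m - 2) := Nat.mul_le_mul h h
  have h5 : 1 ≤ n ^ (m - 3) := Nat.one_le_pow _ _ (by omega)
  nlinarith

end Pool.Agent.H183.MU.ALM

namespace Pool.Agent.H183.MU

open Finset ALM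

theorem t_ALM (h1 : S_KEY) (h2 : S_DENS) (h3 : S_DIR) (h4 : S_CLS) (h5 : S_ROOT) : S_ALM := by
  intro m hm hme ε hε
  obtain ⟨s, L, hs, hL, hroot⟩ := h5 m hm hme
  have hRp : ∀ w ∈ RR s L, w.Prime := fun w hw => hw.1
  have hR2 : ∀ w ∈ RR s L, w ≠ 2 := fun w hw => ne_two hs hw.2.1
  have hdiv := h3 s L hs hL
  obtain ⟨X₁, hX₁⟩ := h2 (RR s L) hRp hdiv
    (fun w a b => (a * b) ^ (m / 2) = -1 ∧ b ^ ((w - 1) / 2) = -1) (by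
      intro w hw
      obtain ⟨⟨x₁, hx₁⟩, -⟩ := hroot w hw.1 hw.2.1 hw.2.2
      obtain ⟨B, hB0, hBc, hB⟩ := h4 w hw.1 (hR2 w hw) x₁
      refine ⟨B, hB0, hBc, fun b hb => ?_⟩
      obtain ⟨a, ha, hb'⟩ := hB b hb
      exact ⟨a, by rw [ha, hx₁], hb'⟩) (ε / 2) (by positivity)
  obtain ⟨X₂, hX₂⟩ := h2 (RR s L) hRp hdiv
    (fun w a b => (a * b) ^ (m / 2) = 1 ∧ a * b ≠ 1 ∧ b ^ ((w - 1) / 2) = -1) (by
      intro w hw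
      obtain ⟨-, x₂, hx₂, hx₂'⟩ := hroot w hw.1 hw.2.1 hw.2.2
      obtain ⟨B, hB0, hBc, hB⟩ := h4 w hw.1 (hR2 w hw) x₂
      refine ⟨B, hB0, hBc, fun b hb => ?_⟩
      obtain ⟨a, ha, hb'⟩ := hB b hb
      exact ⟨a, by rw [ha, hx₂], by rw [ha]; exact hx₂', hb'⟩) (ε / 2) (by positivity)
  refine ⟨max X₁ X₂, fun X hX => ?_⟩
  have hb₁ := hX₁ X (le_of_max_le_left hX)
  have hb₂ := hX₂ X (le_of_max_le_right hX)
  set E₁ : Set (ℕ × ℕ) := {x : ℕ × ℕ | 1 ≤ x.1 ∧ x.2.Prime ∧ x.1 ≤ x.2 ∧ x.1 * x.2 ≤ X ∧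
    ∀ w ∈ RR s L, ¬ (((x.1 : ZMod w) * (x.2 : ZMod w)) ^ (m / 2) = -1 ∧
      (x.2 : ZMod w) ^ ((w - 1) / 2) = -1)} with hE₁
  set E₂ : Set (ℕ × ℕ) := {x : ℕ × ℕ | 1 ≤ x.1 ∧ x.2.Prime ∧ x.1 ≤ x.2 ∧ x.1 * x.2 ≤ X ∧
    ∀ w ∈ RR s L, ¬ (((x.1 : ZMod w) * (x.2 : ZMod w)) ^ (m / 2) = 1 ∧
      (x.1 : ZMod w) * (x.2 : ZMod w) ≠ 1 ∧ (x.2 : ZMod w) ^ ((w - 1) / 2) = -1)} with hE₂
  have hf₁ : E₁.Finite := fin_pairs X _
  have hf₂ : E₂.Finite := fin_pairs X _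
  have hsub : {n : ℕ | 2 ≤ n ∧ n ≤ X ∧
      (∃ p : ℕ, p.Prime ∧ p ∣ n ∧ 2 * n ^ (m - 3) ≤ p ^ (m - 2)) ∧ HasAb n m} ⊆
      (fun x : ℕ × ℕ => x.1 * x.2) '' (E₁ ∪ E₂) := by
    rintro n ⟨hn2, hnX, ⟨p, hp, hpn, hpb⟩, hD⟩
    obtain ⟨t, ht⟩ := hpn
    have htn : n = t * p := by rw [ht, mul_comm]
    have ht1 : 1 ≤ t := by
      rcases Nat.eq_zero_or_pos t with h | h
      · rw [h, zero_mul] at htn
        omega
      · exact h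
    have htp : t ≤ p := by
      have h6 := le_sq hn2 hm hpb
      rw [htn, sq] at h6
      exact Nat.le_of_mul_le_mul_right h6 hp.pos
    refine ⟨(t, p), ?_, htn.symm⟩
    by_contra hcon
    rw [Set.mem_union, not_or] at hcon
    obtain ⟨hc₁, hc₂⟩ := hcon
    have hc₁' : ∃ w ∈ RR s L, ((t : ZMod w) * (p : ZMod w)) ^ (m / 2) = -1 ∧
        (p : ZMod w) ^ ((w - 1) / 2) = -1 := by
      by_contra hno
      push Not at hno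
      exact hc₁ ⟨ht1, hp, htp, by simp only; rw [← htn]; exact hnX,
        fun w hw hP => hno w hw hP.1 hP.2⟩
    have hc₂' : ∃ w ∈ RR s L, ((t : ZMod w) * (p : ZMod w)) ^ (m / 2) = 1 ∧
        (t : ZMod w) * (p : ZMod w) ≠ 1 ∧ (p : ZMod w) ^ ((w - 1) / 2) = -1 := by
      by_contra hno
      push Not at hno
      exact hc₂ ⟨ht1, hp, htp, by simp only; rw [← htn]; exact hnX,
        fun w hw hP => hno w hw hP.1 hP.2.1 hP.2.2⟩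
    obtain ⟨w₁, hw₁, ha₁, hb₁'⟩ := hc₁'
    obtain ⟨w₂, hw₂, ha₂, hc₂'', hb₂'⟩ := hc₂'
    obtain ⟨o₁, ho₁, he₁, -⟩ := half_eq hs hw₁.2.1
    obtain ⟨o₂, ho₂, he₂, -⟩ := half_eq hs hw₂.2.1
    have hn₁ : (n : ZMod w₁) = (t : ZMod w₁) * (p : ZMod w₁) := by rw [htn]; push_cast; ring
    have hn₂ : (n : ZMod w₂) = (t : ZMod w₂) * (p : ZMod w₂) := by rw [htn]; push_cast; ring
    have hne : w₁ ≠ w₂ := by
      rintro rfl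
      exact neg_one_ne hw₁.1 (hR2 _ hw₁) (ha₁.symm.trans ha₂)
    refine h1 n m p (2 ^ (s - 1) * o₁ * o₂) w₁ w₂ hn2 hm hme hp ⟨t, ht⟩ hpb hw₁.1 hw₂.1
      (hR2 _ hw₁) (hR2 _ hw₂) hne ?_ ?_ ?_ ?_ hD
    · rw [hn₁]
      exact ha₁
    · rw [hn₂]
      exact ha₂
    · rw [hn₂]
      exact hc₂''
    · refine Nat.Coprime.mul_dvd_of_dvd_of_dvd ((Nat.coprime_primes hw₁.1 hw₂.1).2 hne) ?_ ?_
      · apply dvd_of_neg_one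
        rw [he₁] at hb₁'
        rw [pow_mul, hb₁', ho₂.neg_one_pow]
      · apply dvd_of_neg_one
        rw [he₂] at hb₂'
        rw [mul_right_comm, pow_mul, hb₂', ho₁.neg_one_pow]
  have hc1 : ({n : ℕ | 2 ≤ n ∧ n ≤ X ∧
      (∃ p : ℕ, p.Prime ∧ p ∣ n ∧ 2 * n ^ (m - 3) ≤ p ^ (m - 2)) ∧ HasAb n m}).ncard ≤
      E₁.ncard + E₂.ncard :=
    (Set.ncard_le_ncard hsub ((hf₁.union hf₂).image _)).trans
      ((Set.ncard_image_le (hf₁.union hf₂)).trans (Set.ncard_union_le _ _))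
  have hc2 : (({n : ℕ | 2 ≤ n ∧ n ≤ X ∧
      (∃ p : ℕ, p.Prime ∧ p ∣ n ∧ 2 * n ^ (m - 3) ≤ p ^ (m - 2)) ∧ HasAb n m}.ncard : ℕ) : ℝ) ≤
      (E₁.ncard : ℝ) + (E₂.ncard : ℝ) := by exact_mod_cast hc1
  linarith

end Pool.Agent.H183.MU
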