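import Pool.Agent.H183.MU.Stm

set_option autoImplicit false

/-! # Euler's criterion and roots of unity -/

namespace Pool.Agent.H183.MU

open Finset

namespace CLSROOT

theorem exists_order (w d : ℕ) [Fact w.Prime] (h : d ∣ w - 1) :
    ∃ x : ZMod w, orderOf x = d := by
  obtain ⟨g, hg⟩ := IsCyclic.exists_ofOrder_eq_natCard (α := (ZMod w)ˣ)
  have hc : Nat.card (ZMod w)ˣ = w - 1 := by
    rw [Nat.card_eq_fintype_card, ZMod.card_units]
  rw [hc] at hg
  have hw : 1 < w := (Fact.out : w.Prime).one_lt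
  refine ⟨((g ^ (orderOf g / d) : (ZMod w)ˣ) : ZMod w), ?_⟩
  rw [orderOf_units]
  exact orderOf_pow_orderOf_div (by omega) (by rw [hg]; exact h)

theorem neg_one_ne (w : ℕ) [Fact w.Prime] (h2 : w ≠ 2) : (-1 : ZMod w) ≠ 1 := by
  have : Fact (2 < w) := ⟨by
    have := (Fact.out : w.Prime).two_le
    omega⟩
  exact ZMod.neg_one_ne_one

end CLSROOT

open CLSROOT

theorem t_CLS : S_CLS := by
  intro w hw hw2 x₀
  have : Fact w.Prime := ⟨hw⟩
  have hodd : Odd w := hw.odd_of_ne_two hw2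
  have hhalf : w / 2 = (w - 1) / 2 := by
    obtain ⟨k, hk⟩ := hodd
    omega
  have hpos : 0 < (w - 1) / 2 := by
    have := hw.two_le
    obtain ⟨k, hk⟩ := hodd
    omega
  set B : Finset (ZMod w) := univ.filter fun b => b ≠ 0 ∧ b ^ ((w - 1) / 2) = -1 with hB
  refine ⟨B, ?_, ?_, ?_⟩
  · rw [hB, mem_filter]
    rintro ⟨-, h, -⟩
    exact h rfl
  · have hcov : (univ : Finset (ZMod w)) ⊆
        insert 0 (Polynomial.nthRootsFinset ((w - 1) / 2) (1 : ZMod w) ∪ B) := by
      intro b _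
      rw [mem_insert, mem_union]
      by_cases hb : b = 0
      · exact Or.inl hb
      · right
        rcases ZMod.pow_div_two_eq_neg_one_or_one w hb with h | h
        · left
          rw [Polynomial.mem_nthRootsFinset hpos, ← hhalf]
          exact h
        · right
          rw [hB, mem_filter, ← hhalf]
          exact ⟨mem_univ _, hb, h⟩
    have h1 : w ≤ 1 + ((w - 1) / 2 + B.card) := by
      calc w = (univ : Finset (ZMod w)).card := by rw [card_univ, ZMod.card]
        _ ≤ (insert 0 (Polynomial.nthRootsFinset ((w - 1) / 2) (1 : ZMod w) ∪ B)).card :=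
            card_le_card hcov
        _ ≤ (Polynomial.nthRootsFinset ((w - 1) / 2) (1 : ZMod w) ∪ B).card + 1 :=
            card_insert_le _ _
        _ ≤ (Polynomial.nthRootsFinset ((w - 1) / 2) (1 : ZMod w)).card + B.card + 1 :=
            Nat.add_le_add_right (card_union_le _ _) 1
        _ ≤ (w - 1) / 2 + B.card + 1 := by
            have h2 : (Polynomial.nthRootsFinset ((w - 1) / 2) (1 : ZMod w)).card ≤
                (w - 1) / 2 := by
              rw [Polynomial.nthRootsFinset_def]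
              exact (Multiset.toFinset_card_le _).trans (Polynomial.card_nthRoots _ _)
            omega
        _ = 1 + ((w - 1) / 2 + B.card) := by ring
    obtain ⟨k, hk⟩ := hodd
    omega
  · intro b hb
    rw [hB, mem_filter] at hb
    exact ⟨x₀ * b⁻¹, by rw [mul_assoc, inv_mul_cancel₀ hb.2.1, mul_one], hb.2.2⟩

theorem t_ROOT : S_ROOT := by
  intro m hm hme
  obtain ⟨b, m', hm', hmm⟩ := Nat.exists_eq_two_pow_mul_odd (n := m / 2) (by omega)
  have key : ∀ w : ℕ, w.Prime → w % 2 ^ (b + 1 + 1) = 1 + 2 ^ (b + 1) →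
      w ≠ 2 ∧ ∃ x₁ : ZMod w, x₁ ^ (m / 2) = -1 := by
    intro w hw hmod
    have : Fact w.Prime := ⟨hw⟩
    have hdiv := Nat.div_add_mod w (2 ^ (b + 1 + 1))
    rw [hmod] at hdiv
    have hw2 : w ≠ 2 := by
      intro h
      have h1 : Even (2 ^ (b + 1 + 1) * (w / 2 ^ (b + 1 + 1)) + (1 + 2 ^ (b + 1))) := by
        rw [hdiv, h]
        exact even_two
      rw [pow_succ 2 (b + 1), pow_succ 2 b] at h1
      have h2 : Even (2 ^ b * 2 * 2 * (w / (2 ^ b * 2 * 2)) + (1 + 2 ^ b * 2)) := h1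
      have h3 : Odd (2 ^ b * 2 * 2 * (w / (2 ^ b * 2 * 2)) + (1 + 2 ^ b * 2)) := by
        refine ⟨2 ^ b * 2 * (w / (2 ^ b * 2 * 2)) + 2 ^ b, ?_⟩
        ring
      exact (Nat.not_even_iff_odd.2 h3) h2
    refine ⟨hw2, ?_⟩
    have hdvd : 2 ^ (b + 1) ∣ w - 1 := by
      refine ⟨2 * (w / 2 ^ (b + 1 + 1)) + 1, ?_⟩
      have e : 2 ^ (b + 1) * (2 * (w / 2 ^ (b + 1 + 1)) + 1) =
          2 ^ (b + 1 + 1) * (w / 2 ^ (b + 1 + 1)) + 2 ^ (b + 1) := by ring
      rw [e]
      omega
    obtain ⟨x, hx⟩ := exists_order w (2 ^ (b + 1)) hdvd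
    have h1 : x ^ 2 ^ b * x ^ 2 ^ b = 1 := by
      rw [← pow_add, ← two_mul, ← pow_succ', ← hx]
      exact pow_orderOf_eq_one x
    have h2 : x ^ 2 ^ b ≠ 1 := by
      intro h
      have h3 := orderOf_dvd_of_pow_eq_one h
      rw [hx] at h3
      have h4 := Nat.le_of_dvd (by positivity) h3
      rw [pow_succ] at h4
      have : 0 < 2 ^ b := by positivity
      omega
    have h3 : x ^ 2 ^ b = -1 := by
      rcases mul_self_eq_one_iff.1 h1 with h | h
      · exact absurd h h2
      · exact h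
    exact ⟨x, by rw [hmm, pow_mul, h3, hm'.neg_one_pow]⟩
  rcases Nat.eq_zero_or_pos b with hb | hb
  · refine ⟨b + 1, m', by omega, hm', fun w hw hmod hL => ?_⟩
    have : Fact w.Prime := ⟨hw⟩
    refine ⟨(key w hw hmod).2, ?_⟩
    obtain ⟨x, hx⟩ := exists_order w m' hL
    refine ⟨x, ?_, ?_⟩
    · rw [hmm, hb, pow_zero, one_mul, ← hx]
      exact pow_orderOf_eq_one x
    · intro h
      rw [h, orderOf_one] at hx
      rw [hb, pow_zero, one_mul] at hmm
      omega
  · refine ⟨b + 1, 1, by omega, odd_one, fun w hw hmod _ => ?_⟩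
    have : Fact w.Prime := ⟨hw⟩
    obtain ⟨hw2, h1⟩ := key w hw hmod
    refine ⟨h1, -1, ?_, neg_one_ne w hw2⟩
    have he : Even (m / 2) := by
      rw [hmm]
      exact (Nat.even_pow.2 ⟨even_two, by omega⟩).mul_right m'
    exact he.neg_one_pow

end Pool.Agent.H183.MU
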