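import Pool.Agent.H183.MU.Stm
import Pool.Graph.R_seed8.TH888.B1.PrimeSieve

set_option autoImplicit false

namespace Pool.Agent.H183.MU

namespace CNT

open Finset

open Classical in
/-- the local count -/
theorem loc (w : ℕ) [NeZero w] (hw : w.Prime) (P : ZMod w → ZMod w → Prop) (B : Finset (ZMod w))
    (h0 : (0 : ZMod w) ∉ B) (hB : w ≤ 2 * B.card + 1) (hP : ∀ b ∈ B, ∃ a, P a b) :
    (((univ : Finset (ZMod w × ZMod w)).filter (fun x => x.2 ≠ 0 ∧ ¬ P x.1 x.2)).card : ℝ) ≤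
      Real.exp (-(1 / 2) * (1 / w)) * ((w : ℝ) * ((w - 1 : ℕ) : ℝ)) := by
  choose! a ha using hP
  have h1 : (univ : Finset (ZMod w × ZMod w)).filter (fun x => x.2 ≠ 0 ∧ ¬ P x.1 x.2) ⊆
      ((univ : Finset (ZMod w)) ×ˢ (univ : Finset (ZMod w)).erase 0) \
        B.image (fun b => (a b, b)) := by
    rintro ⟨x, y⟩ hx
    rw [mem_filter] at hx
    rw [mem_sdiff, mem_product, mem_image]
    refine ⟨⟨mem_univ _, mem_erase.2 ⟨hx.2.1, mem_univ _⟩⟩, ?_⟩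
    rintro ⟨b, hb, hbe⟩
    rw [Prod.mk.injEq] at hbe
    refine hx.2.2 ?_
    have h2 := ha b hb
    rw [hbe.1, hbe.2] at h2
    exact h2
  have h2 : (B.image (fun b => (a b, b))).card = B.card :=
    card_image_of_injective _ fun x y hxy => (Prod.mk.injEq _ _ _ _ ▸ hxy).2
  have h3 : B.image (fun b => (a b, b)) ⊆
      (univ : Finset (ZMod w)) ×ˢ (univ : Finset (ZMod w)).erase 0 := by
    intro x hx
    obtain ⟨b, hb, rfl⟩ := mem_image.1 hx
    exact mem_product.2 ⟨mem_univ _, mem_erase.2 ⟨fun h => h0 (h ▸ hb), mem_univ _⟩⟩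
  have h4 : (((univ : Finset (ZMod w)) ×ˢ (univ : Finset (ZMod w)).erase 0)).card =
      w * (w - 1) := by
    rw [card_product, card_erase_of_mem (mem_univ _), card_univ, ZMod.card]
  have h5 := card_le_card h1
  rw [card_sdiff_of_subset h3, h2, h4] at h5
  have h6 : B.card ≤ w * (w - 1) := by
    rw [← h2, ← h4]
    exact card_le_card h3
  have hw1 : 1 ≤ w := hw.one_le
  have hwr : (0 : ℝ) < w := by exact_mod_cast hw.pos
  have h7 : (((univ : Finset (ZMod w × ZMod w)).filter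
      (fun x => x.2 ≠ 0 ∧ ¬ P x.1 x.2)).card : ℝ) ≤ (w : ℝ) * ((w - 1 : ℕ) : ℝ) - B.card := by
    have h8 : (((univ : Finset (ZMod w × ZMod w)).filter
      (fun x => x.2 ≠ 0 ∧ ¬ P x.1 x.2)).card : ℝ) ≤ ((w * (w - 1) - B.card : ℕ) : ℝ) := by
      exact_mod_cast h5
    rw [Nat.cast_sub h6, Nat.cast_mul] at h8
    exact h8
  have h9 : (w : ℝ) ≤ 2 * B.card + 1 := by exact_mod_cast hB
  have h10 : ((w - 1 : ℕ) : ℝ) = w - 1 := by
    rw [Nat.cast_sub hw1, Nat.cast_one]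
  have h11 : (1 : ℝ) - 1 / 2 * (1 / w) ≤ Real.exp (-(1 / 2) * (1 / w)) := by
    have := Real.add_one_le_exp (-(1 / 2) * (1 / (w : ℝ)))
    linarith
  have h12 : (0 : ℝ) ≤ (w : ℝ) * ((w - 1 : ℕ) : ℝ) := by positivity
  calc (((univ : Finset (ZMod w × ZMod w)).filter (fun x => x.2 ≠ 0 ∧ ¬ P x.1 x.2)).card : ℝ)
      ≤ (w : ℝ) * ((w - 1 : ℕ) : ℝ) - B.card := h7
    _ ≤ (w : ℝ) * ((w - 1 : ℕ) : ℝ) - ((w : ℝ) - 1) / 2 := by linarith
    _ = (1 - 1 / 2 * (1 / w)) * ((w : ℝ) * ((w - 1 : ℕ) : ℝ)) := by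
        rw [h10]
        field_simp
    _ ≤ _ := mul_le_mul_of_nonneg_right h11 h12

end CNT

open Finset in
theorem t_CNT : S_CNT := by
  classical
  intro F hF P hP M hM
  have hne : ∀ r : F, NeZero (r : ℕ) := fun r => ⟨(hF r r.2).ne_zero⟩
  set A : Finset (∀ r : F, ZMod (r : ℕ) × ZMod (r : ℕ)) := Fintype.piFinset (fun r : F =>
    (univ : Finset (ZMod (r : ℕ) × ZMod (r : ℕ))).filter
      (fun x => x.2 ≠ 0 ∧ ¬ P r x.1 x.2)) with hA
  have hdvd : ∀ a b : ℕ, a < M → b < M → (∀ r ∈ F, (a : ZMod r) = (b : ZMod r)) → a = b := by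
    intro a b ha hb hab
    have h2 : ∀ r ∈ F, (r : ℤ) ∣ (a : ℤ) - b := by
      intro r hr
      rw [← ZMod.intCast_zmod_eq_zero_iff_dvd]
      push_cast
      rw [sub_eq_zero]
      exact hab r hr
    have h4 : (∏ r ∈ F, r) ∣ ((a : ℤ) - b).natAbs := by
      apply Finset.prod_primes_dvd
      · intro r hr
        exact (hF r hr).prime
      · intro r hr
        exact Int.natCast_dvd.mp (h2 r hr)
    rw [← hM] at h4
    have h5 : ((a : ℤ) - b).natAbs < M := by omega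
    have h6 := Nat.eq_zero_of_dvd_of_lt h4 h5
    omega
  have hcard : {x : ℕ × ℕ | x.1 < M ∧ x.2 < M ∧
      ∀ w ∈ F, (x.2 : ZMod w) ≠ 0 ∧ ¬ P w x.1 x.2}.ncard ≤ A.card := by
    rw [← Set.ncard_coe_finset A]
    refine Set.ncard_le_ncard_of_injOn
      (fun x (r : F) => ((x.1 : ZMod (r : ℕ)), (x.2 : ZMod (r : ℕ)))) ?_ ?_ (Finset.finite_toSet A)
    · intro x hx
      rw [mem_coe, hA, Fintype.mem_piFinset]
      intro r
      exact mem_filter.2 ⟨mem_univ _, hx.2.2 r r.2⟩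
    · intro x hx y hy hxy
      have h1 : ∀ r ∈ F, (x.1 : ZMod r) = (y.1 : ZMod r) ∧ (x.2 : ZMod r) = (y.2 : ZMod r) := by
        intro r hr
        have h3 := congrFun hxy ⟨r, hr⟩
        simp only [Prod.mk.injEq] at h3
        exact h3
      exact Prod.ext (hdvd _ _ hx.1 hy.1 fun r hr => (h1 r hr).1)
        (hdvd _ _ hx.2.1 hy.2.1 fun r hr => (h1 r hr).2)
  have hA2 : (A.card : ℝ) ≤ ∏ r ∈ F,
      (Real.exp (-(1 / 2) * (1 / (r : ℝ))) * ((r : ℝ) * ((r - 1 : ℕ) : ℝ))) := by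
    rw [hA, Fintype.card_piFinset, Nat.cast_prod, ← Finset.prod_coe_sort F]
    refine Finset.prod_le_prod (fun r _ => Nat.cast_nonneg _) fun r _ => ?_
    obtain ⟨B, hB0, hB1, hB2⟩ := hP r r.2
    exact CNT.loc r (hF r r.2) (P r) B hB0 hB1 hB2
  have h1 : ((({x : ℕ × ℕ | x.1 < M ∧ x.2 < M ∧
      ∀ w ∈ F, (x.2 : ZMod w) ≠ 0 ∧ ¬ P w x.1 x.2}.ncard : ℕ) : ℝ)) ≤ A.card := by
    exact_mod_cast hcard
  refine h1.trans (hA2.trans (le_of_eq ?_))
  rw [Finset.prod_mul_distrib, Finset.prod_mul_distrib, ← Real.exp_sum, ← Finset.mul_sum, hM,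
    Pool.Agent.TH888.B1.totient_prod_primes F hF, Nat.cast_prod, Nat.cast_prod]

end Pool.Agent.H183.MU
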