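import Pool.Agent.H183.MU.Stm
import Pool.Agent.H882.DirSum

/-!
S_DIR: the sum of the reciprocals of the primes `w ≡ 1 + 2^s` modulo `2^(s+1)`, `w ≡ 1` modulo `L`,
diverges.
-/

set_option autoImplicit false

namespace Pool.Agent.H183.MU

open Finset

theorem t_DIR : S_DIR := by
  classical
  intro s L hs hL hsum
  have hL0 : L ≠ 0 := by
    rintro rfl
    exact absurd hL (by decide)
  have hcop : Nat.Coprime (2 ^ (s + 1)) L := (Nat.coprime_two_left.mpr hL).pow_left _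
  obtain ⟨a, ha1, ha2⟩ := Nat.chineseRemainder hcop (1 + 2 ^ s) 1
  set q : ℕ := 2 ^ (s + 1) * L with hq
  have hq0 : NeZero q := ⟨by positivity⟩
  have hs2 : 2 ∣ 2 ^ s := dvd_pow_self 2 (by omega)
  have hlt : 1 + 2 ^ s < 2 ^ (s + 1) := by
    have h1 : 2 ^ (s + 1) = 2 ^ s + 2 ^ s := by ring
    have h2 : 1 < 2 ^ s := Nat.one_lt_pow (by omega) (by omega)
    omega
  have hau : Nat.Coprime a q := by
    rw [hq]
    refine Nat.Coprime.mul_right ?_ ?_
    · refine Nat.Coprime.pow_right _ ?_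
      rw [Nat.coprime_two_right]
      have h1 : a ≡ 1 + 2 ^ s [MOD 2] := ha1.of_dvd (dvd_pow_self 2 (by omega))
      rw [Nat.odd_iff]
      have h2 : a % 2 = (1 + 2 ^ s) % 2 := h1
      omega
    · have := ha2.gcd_eq
      rw [Nat.gcd_one_left] at this
      exact this
  have hunit : IsUnit ((a : ℕ) : ZMod q) := (ZMod.isUnit_iff_coprime a q).mpr hau
  refine Pool.Agent.H882.not_summable_recip (q := q) hunit 0 ?_
  have heq : Pool.Agent.H882.recip ((a : ℕ) : ZMod q) 0 =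
      (fun n : ℕ => ({w : ℕ | w.Prime ∧ w % 2 ^ (s + 1) = 1 + 2 ^ s ∧ L ∣ w - 1}).indicator
        (fun n : ℕ => (1 : ℝ) / n) n) := by
    funext p
    unfold Pool.Agent.H882.recip
    have hiff : (p.Prime ∧ (p : ZMod q) = ((a : ℕ) : ZMod q) ∧ 0 < p) ↔
        (p.Prime ∧ p % 2 ^ (s + 1) = 1 + 2 ^ s ∧ L ∣ p - 1) := by
      constructor
      · rintro ⟨hp, h1, -⟩
        rw [ZMod.natCast_eq_natCast_iff] at h1
        refine ⟨hp, ?_, ?_⟩
        · have h2 : p ≡ 1 + 2 ^ s [MOD 2 ^ (s + 1)] :=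
            (h1.of_dvd (Dvd.intro _ hq.symm)).trans ha1
          have h3 : p % 2 ^ (s + 1) = (1 + 2 ^ s) % 2 ^ (s + 1) := h2
          rw [h3, Nat.mod_eq_of_lt hlt]
        · have h2 : p ≡ 1 [MOD L] := (h1.of_dvd (Dvd.intro_left _ hq.symm)).trans ha2
          exact (Nat.modEq_iff_dvd' hp.one_le).mp h2.symm
      · rintro ⟨hp, h1, h2⟩
        refine ⟨hp, ?_, hp.pos⟩
        rw [ZMod.natCast_eq_natCast_iff]
        have h3 : p ≡ a [MOD 2 ^ (s + 1)] := by
          refine Nat.ModEq.trans ?_ ha1.symm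
          change p % 2 ^ (s + 1) = (1 + 2 ^ s) % 2 ^ (s + 1)
          rw [h1, Nat.mod_eq_of_lt hlt]
        have h4 : p ≡ a [MOD L] := by
          refine Nat.ModEq.trans ?_ ha2.symm
          exact ((Nat.modEq_iff_dvd' hp.one_le).mpr h2).symm
        rw [hq]
        exact (Nat.modEq_and_modEq_iff_modEq_mul hcop).mp ⟨h3, h4⟩
    by_cases h : p.Prime ∧ p % 2 ^ (s + 1) = 1 + 2 ^ s ∧ L ∣ p - 1
    · rw [if_pos (hiff.mpr h), Set.indicator_of_mem (by exact h)]
    · rw [if_neg (fun h' => h (hiff.mp h')), Set.indicator_of_notMem (by exact h)]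
  rw [heq]
  exact hsum

end Pool.Agent.H183.MU
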