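import Pool.Agent.H183.MU.Stm
import Pool.Graph.R_seed8.TH66.SG.Quot

/-!
# Mann's test for a symmetric image
-/

set_option autoImplicit false

namespace Pool.Agent.H183.MU

namespace EVEN

open Finset
open Pool.Agent.TH66.SG (cor cor_mul num cor_num sum_num fib final)

section
variable {H : Type} [CommGroup H] [Fintype H] [DecidableEq H]

/-- A prime which does not divide the order of the group and divides the autocorrelation of a
symmetric function divides the function. -/
theorem dvd_of_cor_sym (p : ℕ) (hp : p.Prime) (w : ℕ) (hw : Fintype.card H = w)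
    (hpw : Nat.Coprime p w) (f : H → ℤ) (hsym : ∀ h, f h⁻¹ = f h) (hf : ∀ g, (p : ℤ) ∣ cor f g)
    (h : H) : (p : ℤ) ∣ f h := by
  classical
  have : Fact p.Prime := ⟨hp⟩
  have : CharP (MonoidAlgebra (ZMod p) H) p :=
    charP_of_injective_algebraMap (algebraMap (ZMod p) (MonoidAlgebra (ZMod p) H)).injective p
  have hw0 : 0 < w := hw ▸ Fintype.card_pos
  set F : MonoidAlgebra (ZMod p) H := ∑ h, MonoidAlgebra.single h (f h : ZMod p) with hF
  set F' : MonoidAlgebra (ZMod p) H := ∑ h, MonoidAlgebra.single h⁻¹ (f h : ZMod p) with hF'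
  have hFF : F' = F := by
    rw [hF, hF']
    refine Fintype.sum_equiv (Equiv.inv H) _ _ fun h => ?_
    rw [Equiv.inv_apply, hsym]
  have hpow : ∀ h : H, h ^ p ^ w.totient = h := by
    intro h
    have h1 : p ^ w.totient ≡ 1 [MOD w] := Nat.ModEq.pow_totient hpw
    have h2 : h ^ p ^ w.totient = h ^ 1 := by
      rw [← pow_mod_card h (p ^ w.totient), ← pow_mod_card h 1, hw]
      exact congrArg (fun n => h ^ n) h1
    rw [h2, pow_one]
  have h1 : F ^ p ^ w.totient = F := by
    rw [hF, sum_pow_char_pow]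
    refine sum_congr rfl fun h _ => ?_
    rw [MonoidAlgebra.single_pow, ZMod.pow_card_pow, hpow]
  have h3 : F * F' = 0 := by
    rw [hF, hF', sum_mul_sum]
    have e : ∀ h' : H, ∑ h : H, (MonoidAlgebra.single h (f h : ZMod p) : MonoidAlgebra (ZMod p) H) *
        MonoidAlgebra.single h'⁻¹ (f h' : ZMod p) =
        ∑ g : H, MonoidAlgebra.single g ((f (g * h') : ZMod p) * (f h' : ZMod p)) := by
      intro h'
      refine Fintype.sum_equiv (Equiv.mulRight h'⁻¹) _ _ fun h => ?_
      rw [MonoidAlgebra.single_mul_single]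
      simp
    rw [sum_comm, sum_congr rfl fun h' _ => e h', sum_comm]
    refine sum_eq_zero fun g _ => ?_
    have e2 : ∑ h' : H, (MonoidAlgebra.single g ((f (g * h') : ZMod p) * (f h' : ZMod p)) :
        MonoidAlgebra (ZMod p) H) =
          MonoidAlgebra.single g (∑ h' : H, (f (g * h') : ZMod p) * (f h' : ZMod p)) := by
      rw [← MonoidAlgebra.singleAddHom_apply, map_sum]
      rfl
    rw [e2]
    have e3 : ∑ h' : H, (f (g * h') : ZMod p) * (f h' : ZMod p) = 0 := by
      have := (ZMod.intCast_zmod_eq_zero_iff_dvd (cor f g) p).2 (hf g)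
      rw [cor] at this
      push_cast at this
      exact this
    rw [e3, MonoidAlgebra.single_zero]
  have h4 : F = 0 := by
    have e1 : F ^ 2 = 0 := by
      rw [sq]
      nth_rewrite 2 [← hFF]
      exact h3
    have e3 : 2 ≤ p ^ w.totient :=
      hp.two_le.trans (Nat.le_self_pow (Nat.totient_pos.2 hw0).ne' p)
    rw [← h1]
    exact pow_eq_zero_of_le e3 e1
  have h5 : F.coeff h = (f h : ZMod p) := by
    rw [hF, MonoidAlgebra.coeff_sum, Finsupp.finsetSum_apply]
    simp [Finsupp.single_apply]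
  rw [h4] at h5
  exact (ZMod.intCast_zmod_eq_zero_iff_dvd (f h) p).1 h5.symm

/-- If the autocorrelation of the symmetric function `f` is divisible by `u²` and `u` is prime to the
order of the group then `f` is divisible by `u`. -/
theorem descent_sym (w : ℕ) (hw : Fintype.card H = w) (hw2 : 2 < w) (u : ℕ) (hu : 0 < u)
    (huw : Nat.Coprime u w) :
    ∀ (f : H → ℤ) (B : H → ℤ), (∀ h, f h⁻¹ = f h) → (∀ g, cor f g = (u : ℤ) ^ 2 * B g) →
      ∃ y : H → ℤ, (∀ h, f h = u * y h) ∧ ∀ g, cor y g = B g := by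
  induction u using Nat.recOnMul with
  | zero => omega
  | one =>
    intro f B _ h
    exact ⟨f, fun h => by simp, fun g => by simpa using h g⟩
  | prime p hp =>
    intro f B hsym h
    have h1 : ∀ x, (p : ℤ) ∣ f x := dvd_of_cor_sym p hp w hw huw f hsym fun g => by
      rw [h g, sq, mul_assoc]
      exact dvd_mul_right _ _
    choose y hy using h1
    refine ⟨y, hy, fun g => ?_⟩
    have h2 : f = fun h => (p : ℤ) * y h := funext hy
    have h3 := h g
    rw [h2, cor_mul] at h3
    exact mul_left_cancel₀ (pow_ne_zero 2 (by exact_mod_cast hp.ne_zero)) h3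
  | mul a b iha ihb =>
    intro f B hsym h
    have ha : 0 < a := Nat.pos_of_ne_zero (by rintro rfl; simp at hu)
    have hb : 0 < b := Nat.pos_of_ne_zero (by rintro rfl; simp at hu)
    obtain ⟨y, hy, hy2⟩ := iha ha (Nat.Coprime.coprime_mul_right huw) f
      (fun g => (b : ℤ) ^ 2 * B g) hsym (fun g => by rw [h g]; push_cast; ring)
    have hys : ∀ x, y x⁻¹ = y x := by
      intro x
      have h1 := hsym x
      rw [hy, hy] at h1
      exact mul_left_cancel₀ (by exact_mod_cast ha.ne') h1
    obtain ⟨z, hz, hz2⟩ := ihb hb (Nat.Coprime.coprime_mul_left huw) y B hys hy2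
    exact ⟨z, fun h => by rw [hy, hz]; push_cast; ring, hz2⟩

end

section
variable {G H : Type} [Group G] [Fintype G] [DecidableEq G] [CommGroup H] [Fintype H]
  [DecidableEq H]

/-- Mann's test for a symmetric image -/
theorem mann_sym (φ : G →* H) (hφ : Function.Surjective φ) (D : Finset G) (k lam u v w : ℕ)
    (hk : D.card = k)
    (hD : ∀ g : G, g ≠ 1 → ((D ×ˢ D).filter (fun p : G × G => p.1 * p.2⁻¹ = g)).card = lam)
    (hku : k = lam + (u * v) ^ 2) (hw : Fintype.card H = w) (hv : 0 < v) (hvw : 4 * v ^ 4 < w)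
    (hu : 0 < u) (huw : Nat.Coprime u w) (hsym : ∀ h, num φ D h⁻¹ = num φ D h) :
    (w : ℤ) ∣ k + u * v ∨ (w : ℤ) ∣ k - u * v := by
  classical
  have hw2 : 2 < w := by
    have : 1 ≤ v ^ 4 := Nat.one_le_pow _ _ hv
    omega
  set d : H → ℤ := num φ D with hd
  set κ : ℤ := ∑ g : G, if φ g = 1 then (1 : ℤ) else 0 with hκ
  have hone : ((((D ×ˢ D).filter (fun p : G × G => p.1 * p.2⁻¹ = 1)).card : ℕ) : ℤ) = k := by
    have : (D ×ˢ D).filter (fun p : G × G => p.1 * p.2⁻¹ = 1) = D.image (fun x => (x, x)) := by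
      ext ⟨x, y⟩
      simp only [mem_filter, mem_product, mem_image, Prod.mk.injEq]
      constructor
      · rintro ⟨⟨hx, _⟩, hxy⟩
        exact ⟨x, hx, rfl, mul_inv_eq_one.1 hxy⟩
      · rintro ⟨a, ha, rfl, rfl⟩
        exact ⟨⟨ha, ha⟩, mul_inv_cancel _⟩
    rw [this, card_image_of_injective _ (fun a b h => (Prod.mk.inj h).1), hk]
  have hcor : ∀ h, cor d h = lam * κ + (if h = 1 then ((u : ℤ) * v) ^ 2 else 0) := by
    intro h
    rw [hd, cor_num]
    have e : ∀ g : G, (if φ g = h then
        ((((D ×ˢ D).filter (fun p : G × G => p.1 * p.2⁻¹ = g)).card : ℕ) : ℤ) else 0) =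
        lam * (if φ g = h then (1 : ℤ) else 0) +
          (if g = 1 then (if h = 1 then ((u : ℤ) * v) ^ 2 else 0) else 0) := by
      intro g
      by_cases hg : g = 1
      · subst hg
        rw [hone, map_one, if_pos rfl, hku]
        by_cases hh : h = 1
        · subst hh; simp
        · rw [if_neg (Ne.symm hh), if_neg (Ne.symm hh), if_neg hh]; simp
      · rw [hD g hg, if_neg hg, add_zero]
        split_ifs <;> simp
    rw [sum_congr rfl fun g _ => e g, sum_add_distrib, ← mul_sum, fib φ hφ h, sum_ite_eq',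
      if_pos (mem_univ _)]
  have hdk : ∑ h, d h = k := by rw [hd, sum_num, hk]
  have hcardH : (∑ _h : H, (1 : ℤ)) = w := by simp [hw]
  have hk2 : (k : ℤ) ^ 2 = w * (lam * κ) + (u * v) ^ 2 := by
    have e1 : ∑ g, cor d g = (k : ℤ) ^ 2 := by
      unfold cor
      rw [sum_comm]
      have : ∀ h : H, ∑ g : H, d (g * h) * d h = k * d h := by
        intro h
        rw [← sum_mul, Fintype.sum_equiv (Equiv.mulRight h) (fun g => d (g * h)) d (fun g => rfl), hdk]
      rw [sum_congr rfl fun h _ => this h, ← mul_sum, hdk]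
      ring
    rw [← e1, sum_congr rfl fun g _ => hcor g, sum_add_distrib, sum_ite_eq', if_pos (mem_univ _)]
    have : ∑ _x : H, (lam : ℤ) * κ = (∑ _h : H, (1 : ℤ)) * (lam * κ) := by rw [sum_mul]; simp
    rw [this, hcardH]
  set f : H → ℤ := fun h => w * d h - k with hf
  have hcf : ∀ g, cor f g = (u : ℤ) ^ 2 * (v ^ 2 * ((if g = 1 then (w : ℤ) ^ 2 else 0) - w)) := by
    intro g
    have e1 : cor f g = w ^ 2 * cor d g - w * k * (∑ h, d (g * h)) - w * k * (∑ h, d h) +
        k ^ 2 * ∑ _h : H, (1 : ℤ) := by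
      unfold cor
      rw [mul_sum, mul_sum, mul_sum, mul_sum, ← sum_sub_distrib, ← sum_sub_distrib,
        ← sum_add_distrib]
      refine sum_congr rfl fun h _ => ?_
      simp only [hf]
      ring
    have e2 : ∑ h, d (g * h) = k := by
      rw [Fintype.sum_equiv (Equiv.mulLeft g) (fun h => d (g * h)) d (fun h => rfl), hdk]
    rw [e1, e2, hdk, hcardH, hcor, hk2]
    split_ifs
    · linear_combination ((-2 : ℤ) * w) * hk2
    · linear_combination ((-2 : ℤ) * w) * hk2
  have hfs : ∀ h, f h⁻¹ = f h := by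
    intro h
    simp only [hf]
    rw [hsym]
  obtain ⟨y, hy, hyc⟩ := descent_sym w hw hw2 u hu huw f _ hfs hcf
  have hu' : (u : ℤ) ≠ 0 := by exact_mod_cast hu.ne'
  have hsum : ∑ h, y h = 0 := by
    have e : (u : ℤ) * ∑ h, y h = 0 := by
      rw [mul_sum, ← sum_congr rfl fun h _ => hy h]
      simp only [hf]
      rw [sum_sub_distrib, ← mul_sum, hdk]
      have : ∑ _x : H, (k : ℤ) = k * ∑ _h : H, (1 : ℤ) := by rw [mul_sum]; simp
      rw [this, hcardH]
      ring
    exact (mul_eq_zero.1 e).resolve_left hu'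
  have hsq : ∑ h, y h ^ 2 = (v : ℤ) ^ 2 * ((w : ℤ) ^ 2 - w) := by
    have := hyc 1
    rw [if_pos rfl] at this
    rw [← this]
    unfold cor
    exact sum_congr rfl fun h _ => by rw [one_mul, sq]
  have hcop : IsCoprime (w : ℤ) (u : ℤ) := by
    rw [Nat.isCoprime_iff_coprime]
    exact huw.symm
  have hwpos : (0 : ℤ) < w := by exact_mod_cast (by omega : 0 < w)
  obtain ⟨r, hr⟩ : ∃ r : ℤ, r = y 1 % w := ⟨_, rfl⟩
  have hr0 : 0 ≤ r := hr ▸ Int.emod_nonneg _ hwpos.ne'
  have hr1 : r < w := hr ▸ Int.emod_lt_of_pos _ hwpos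
  have hyr : ∀ h, ∃ z : ℤ, y h = r + w * z := by
    intro h
    have h1 : (w : ℤ) ∣ u * (y h - y 1) := by
      refine ⟨d h - d 1, ?_⟩
      have h2 := hy h
      have h3 := hy 1
      simp only [hf] at h2 h3
      linarith
    have h2 := hcop.dvd_of_dvd_mul_left h1
    have h3 : (w : ℤ) ∣ y h - r := by
      have h4 : (w : ℤ) ∣ y 1 - r := by
        rw [hr]
        exact Int.dvd_self_sub_emod
      have := dvd_add h2 h4
      rwa [sub_add_sub_cancel] at this
    obtain ⟨z, hz⟩ := h3
    exact ⟨z, by linarith⟩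
  have hfin := final w hw v hv hvw y r hr0 hr1 hyr hsum hsq
  obtain ⟨z, hz⟩ := hyr 1
  have h5 := hy 1
  simp only [hf] at h5
  rcases hfin with h | h
  · left
    refine ⟨d 1 - u * z, ?_⟩
    rw [hz, h] at h5
    linarith
  · right
    refine ⟨d 1 - u - u * z, ?_⟩
    rw [hz, h] at h5
    linarith

end

end EVEN

open Finset in
theorem t_EVEN : S_EVEN := by
  intro G H _ _ _ _ _ _ φ hφ D k lam u w hD hk hw hw4 hu huw hsym
  have h1 := EVEN.mann_sym φ hφ D k lam u 1 w hD.1 hD.2 (by rw [mul_one]; exact hk) hw one_pos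
    (by omega) hu huw (fun h => by
      unfold Pool.Agent.TH66.SG.num
      rw [← sum_filter, ← sum_filter, sum_const, sum_const, hsym h])
  simpa using h1

end Pool.Agent.H183.MU
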