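import Pool.Agent.H183.MU.Stm
import Pool.Graph.R_seed8.TH66.SG.Nilp

/-!
# S_KEY: the exclusion
-/

set_option autoImplicit false

namespace Pool.Agent.H183.MU

open Finset

namespace KEY

/-- Iterates of a multiplier which fixes the set. -/
lemma iter {G : Type} [CommGroup G] [DecidableEq G] {D : Finset G} {p : ℕ}
    (h : D.image (fun x => x ^ p) = D) (j : ℕ) : D.image (fun x => x ^ (p ^ j)) = D := by
  induction j with
  | zero => simp
  | succ j ih =>
    have e : (fun x : G => x ^ (p ^ (j + 1))) = (fun x => x ^ p) ∘ (fun x => x ^ (p ^ j)) := by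
      funext x
      simp only [Function.comp_apply]
      rw [← pow_mul, pow_succ]
    rw [e, ← Finset.image_image, ih, h]

/-- The symmetry of the image in a group where the multiplier is the inversion. -/
lemma symm {G H : Type} [CommGroup G] [DecidableEq G] [CommGroup H] [DecidableEq H]
    {D : Finset G} {q : ℕ} (h : D.image (fun x => x ^ q) = D) (φ : G →* H)
    (hq : ∀ y : H, y ^ q = y⁻¹) (y : H) :
    (D.filter (fun x => φ x = y⁻¹)).card = (D.filter (fun x => φ x = y)).card := by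
  have hinj : Set.InjOn (fun x : G => x ^ q) D := Finset.card_image_iff.1 (by rw [h])
  have key : ∀ y : H,
      (D.filter (fun x => φ x = y)).card ≤ (D.filter (fun x => φ x = y⁻¹)).card := by
    intro y
    refine Finset.card_le_card_of_injOn (fun x => x ^ q) ?_ (hinj.mono ?_)
    · intro x hx
      have hx' := Finset.mem_filter.1 (Finset.mem_coe.1 hx)
      refine Finset.mem_coe.2 (Finset.mem_filter.2 ⟨?_, ?_⟩)
      · rw [← h]
        exact Finset.mem_image_of_mem _ hx'.1
      · rw [map_pow, hx'.2, hq]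
    · intro x hx
      exact Finset.mem_coe.2 (Finset.mem_filter.1 (Finset.mem_coe.1 hx)).1
  refine le_antisymm ?_ (key y)
  have := key y⁻¹
  rwa [inv_inv] at this

end KEY

/-- **S_KEY** -/
theorem t_KEY (h1 : S_MULT) (h2 : S_FIX) (h3 : S_EVEN) : S_KEY := by
  intro n m p j w₁ w₂ hn hm hmev hp hpn hpl hw1 hw2 ho1 ho2 h12 hz1 hz2 hn2 hj h
  obtain ⟨G, hG, hGf, hGd, D, hv', hk, hlam⟩ := h
  have : Fact w₁.Prime := ⟨hw1⟩
  have : Fact w₂.Prime := ⟨hw2⟩
  have hpos : 0 < n - 1 := by omega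
  obtain ⟨r, hr⟩ := hmev
  have hr2 : 2 ≤ r := by omega
  have hmr : m / 2 = r := by omega
  rw [hmr] at hz1 hz2
  set u : ℕ := n ^ (r - 1) with hu
  have hu0 : 0 < u := by positivity
  have hnu : n * u = n ^ r := by
    rw [hu, ← pow_succ']
    congr 1
    omega
  have hu2 : u ^ 2 = n ^ (m - 2) := by
    rw [hu, ← pow_mul]
    congr 1
    omega
  have hgeom : ∀ j : ℕ, (∑ i ∈ range j, n ^ i) * (n - 1) = n ^ j - 1 := by
    intro j
    exact Nat.geomSum_eq hn j ▸ (Nat.div_mul_cancel (by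
      simpa using Nat.sub_dvd_pow_sub_pow n 1 j))
  obtain ⟨lam, hlam'⟩ : ∃ lam : ℕ, lam * (n - 1) = n ^ (m - 2) - 1 := ⟨_, hgeom (m - 2)⟩
  have hDS : IsDS D D.card lam := ⟨rfl, fun g hg =>
    Nat.eq_of_mul_eq_mul_right hpos ((hlam g hg).trans hlam'.symm)⟩
  have hle : ∀ j : ℕ, 1 ≤ n ^ j := fun j => Nat.one_le_pow _ _ (by omega)
  have hku : D.card = lam + u ^ 2 := by
    apply Nat.eq_of_mul_eq_mul_right hpos
    rw [add_mul, hlam', hk, hu2]
    have e : n ^ (m - 1) = n ^ (m - 2) * n := by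
      rw [← pow_succ]
      congr 1
      omega
    have h3 := hle (m - 2)
    obtain ⟨t, rfl⟩ : ∃ t, n = t + 1 := ⟨n - 1, by omega⟩
    simp only [Nat.add_sub_cancel]
    rw [e, mul_add, mul_one]
    omega
  -- `lam` is small
  have hlt : lam < p ^ (m - 2) := by
    refine lt_of_lt_of_le ?_ hpl
    have e : n ^ (m - 2) = n ^ (m - 3) * n := by
      rw [← pow_succ]
      congr 1
      omega
    have h4 : lam * (n - 1) < 2 * n ^ (m - 3) * (n - 1) := by
      have h5 := hle (m - 2)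
      have h6 : n ^ (m - 2) ≤ 2 * n ^ (m - 3) * (n - 1) := by
        rw [e, mul_comm 2, mul_assoc]
        exact Nat.mul_le_mul_left _ (by omega)
      omega
    exact lt_of_mul_lt_mul_right h4 (Nat.zero_le _)
  have hdvd : p ^ (m - 2) ∣ D.card - lam := by
    rw [hku, Nat.add_sub_cancel_left, hu2]
    exact pow_dvd_pow_of_dvd hpn _
  -- geometric sums
  have hcard : Fintype.card G = ∑ i ∈ range m, n ^ i :=
    Nat.eq_of_mul_eq_mul_right hpos (hv'.trans (hgeom m).symm)
  have hkcard : D.card = ∑ i ∈ range (m - 1), n ^ i :=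
    Nat.eq_of_mul_eq_mul_right hpos (hk.trans (hgeom (m - 1)).symm)
  have hGk : Fintype.card G = n * D.card + 1 := by
    rw [hcard, hkcard, Finset.mul_sum, show m = (m - 1) + 1 by omega, Finset.sum_range_succ',
      Nat.add_sub_cancel, pow_zero]
    congr 1
    exact Finset.sum_congr rfl fun i _ => by rw [pow_succ, mul_comm]
  have hpG : ¬ p ∣ Fintype.card G := by
    intro h
    rw [hGk] at h
    have h5 := (Nat.dvd_add_right (hpn.mul_right D.card)).1 h
    exact hp.one_lt.ne' (Nat.dvd_one.1 h5)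
  have hpk : ¬ p ∣ D.card := by
    intro h
    rw [hkcard, show m - 1 = (m - 2) + 1 by omega, Finset.sum_range_succ', pow_zero] at h
    have h5 : p ∣ ∑ i ∈ range (m - 2), n ^ (i + 1) :=
      Finset.dvd_sum fun i _ => dvd_pow hpn (Nat.succ_ne_zero i)
    have h6 := (Nat.dvd_add_right h5).1 h
    exact hp.one_lt.ne' (Nat.dvd_one.1 h6)
  have hlk : lam < D.card := by
    rw [hku]
    have : 0 < u ^ 2 := by positivity
    omega
  have hcop1 : Nat.Coprime D.card (Fintype.card G) := by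
    rw [hGk]
    exact (Nat.coprime_mul_right_add_right D.card 1 n).2 (Nat.coprime_one_right _)
  have hcop2 : Nat.Coprime p (Fintype.card G) := (Nat.Prime.coprime_iff_not_dvd hp).2 hpG
  obtain ⟨D', hDS', hfix⟩ := h2 G D D.card lam p hDS hp.one_lt.le hcop1 hcop2
    (h1 G D D.card lam p (m - 2) hDS hp hpG hpk hlk hdvd hlt)
  have hfixj := KEY.iter hfix j
  -- the quotients
  have two_ne : ∀ (w : ℕ) (_ : Fact w.Prime), w ≠ 2 → (2 : ZMod w) ≠ 0 := by
    intro w hw h2 h0
    have : ((2 : ℕ) : ZMod w) = 0 := by exact_mod_cast h0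
    rw [ZMod.natCast_eq_zero_iff] at this
    exact h2 ((Nat.prime_dvd_prime_iff_eq hw.out Nat.prime_two).1 this)
  have hn1 : (n : ZMod w₁) ≠ 1 := by
    intro h
    rw [h, one_pow] at hz1
    apply two_ne w₁ inferInstance ho1
    linear_combination hz1
  have hpow : ∀ (w : ℕ), ((n : ZMod w) ^ r) ^ 2 = 1 → (n : ZMod w) ^ m = 1 := by
    intro w h
    rw [← h, ← pow_mul]
    congr 1
    omega
  have hdv : ∀ (w : ℕ) (_ : Fact w.Prime), ((n : ZMod w) ^ r) ^ 2 = 1 → (n : ZMod w) ≠ 1 →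
      w ∣ Nat.card G := by
    intro w hw hzw hnw
    rw [Nat.card_eq_fintype_card, ← ZMod.natCast_eq_zero_iff]
    have e : ((Fintype.card G * (n - 1) : ℕ) : ZMod w) = 0 := by
      rw [hv', Nat.cast_sub (hle m)]
      push_cast
      rw [hpow w hzw, sub_self]
    rw [Nat.cast_mul] at e
    rcases mul_eq_zero.1 e with h5 | h5
    · exact h5
    · exfalso
      rw [Nat.cast_sub (by omega), sub_eq_zero] at h5
      exact hnw (by simpa using h5)
  have hs1 : ((n : ZMod w₁) ^ r) ^ 2 = 1 := by rw [hz1]; ring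
  have hs2 : ((n : ZMod w₂) ^ r) ^ 2 = 1 := by rw [hz2]; ring
  obtain ⟨φ, hφ⟩ := Pool.Agent.TH66.SG.nilp_quot G w₁ (hdv w₁ inferInstance hs1 hn1)
  obtain ⟨ψ, hψ⟩ := Pool.Agent.TH66.SG.nilp_quot G w₂ (hdv w₂ inferInstance hs2 hn2)
  have hsurj := Pool.Agent.TH66.SG.prod_surj G w₁ w₂ h12 φ ψ hφ hψ
  have hcardH : Fintype.card (Multiplicative (ZMod w₁) × Multiplicative (ZMod w₂)) = w₁ * w₂ := by
    rw [Fintype.card_prod]
    simp [ZMod.card]
  have hinv : ∀ y : Multiplicative (ZMod w₁) × Multiplicative (ZMod w₂), y ^ (p ^ j) = y⁻¹ := by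
    intro y
    rw [eq_inv_iff_mul_eq_one, ← pow_succ]
    obtain ⟨c, hc⟩ := hj
    rw [hc, pow_mul]
    have : y ^ (w₁ * w₂) = 1 := by
      rw [← hcardH]
      exact pow_card_eq_one
    rw [this, one_pow]
  have hsym := KEY.symm hfixj (φ.prod ψ) hinv
  have hw1' : 3 ≤ w₁ := by
    have := hw1.two_le
    omega
  have hw2' : 3 ≤ w₂ := by
    have := hw2.two_le
    omega
  have h4w : 4 < w₁ * w₂ := by nlinarith
  have hcopw : ∀ (w : ℕ) (_ : Fact w.Prime), ((n : ZMod w) ^ r) ^ 2 = 1 → Nat.Coprime u w := by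
    intro w hw h
    rw [hu]
    apply Nat.Coprime.pow_left
    rw [Nat.coprime_comm, Nat.Prime.coprime_iff_not_dvd hw.out]
    intro hd
    have h0 : (n : ZMod w) = 0 := (ZMod.natCast_eq_zero_iff _ _).2 hd
    rw [h0, zero_pow (by omega : r ≠ 0), zero_pow two_ne_zero] at h
    exact zero_ne_one h
  have hcu : Nat.Coprime u (w₁ * w₂) :=
    Nat.Coprime.mul_right (hcopw w₁ inferInstance hs1) (hcopw w₂ inferInstance hs2)
  have hM := h3 G _ (φ.prod ψ) hsurj D' D.card lam u (w₁ * w₂) hDS' hku hcardH h4w hu0 hcu hsym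
  -- the residue of `k`
  have hkn : ∀ (w : ℕ) (_ : Fact w.Prime), ((n : ZMod w) ^ r) ^ 2 = 1 → (n : ZMod w) ≠ 1 →
      (D.card : ZMod w) * n = -1 := by
    intro w hw hzw hnw
    have e : ((D.card * (n - 1) : ℕ) : ZMod w) = (n : ZMod w) ^ (m - 1) - 1 := by
      rw [hk, Nat.cast_sub (hle (m - 1))]
      push_cast
      ring
    rw [Nat.cast_mul, Nat.cast_sub (by omega), Nat.cast_one] at e
    have e2 : (n : ZMod w) ^ (m - 1) * n = 1 := by
      rw [← pow_succ, show m - 1 + 1 = m by omega]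
      exact hpow w hzw
    have e3 : ((n : ZMod w) - 1) * ((D.card : ZMod w) * n + 1) = 0 := by
      linear_combination (n : ZMod w) * e + e2
    rcases mul_eq_zero.1 e3 with h | h
    · exact absurd (sub_eq_zero.1 h) hnw
    · linear_combination h
  have hk1 := hkn w₁ inferInstance hs1 hn1
  have hk2 := hkn w₂ inferInstance hs2 hn2
  have hun : ∀ w : ℕ, (n : ZMod w) * u = (n : ZMod w) ^ r := by
    intro w
    exact_mod_cast congrArg (Nat.cast (R := ZMod w)) hnu
  have hun1 : (n : ZMod w₁) * u = -1 := by rw [hun, hz1]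
  have hun2 : (n : ZMod w₂) * u = 1 := by rw [hun, hz2]
  rcases hM with hM | hM
  · -- `k ≡ - u`, contradiction modulo `w₁`
    have h3 : (w₁ : ℤ) ∣ (D.card : ℤ) + u := (Dvd.intro _ (by push_cast; rfl)).trans hM
    have h4 : ((D.card : ZMod w₁) + u) = 0 := by
      have := (ZMod.intCast_zmod_eq_zero_iff_dvd _ w₁).2 h3
      exact_mod_cast this
    apply two_ne w₁ inferInstance ho1
    linear_combination (-(n : ZMod w₁)) * h4 + hk1 + hun1
  · -- `k ≡ u`, contradiction modulo `w₂`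
    have h3 : (w₂ : ℤ) ∣ (D.card : ℤ) - u :=
      (Dvd.intro_left (w₁ : ℤ) (by push_cast; rfl)).trans hM
    have h4 : ((D.card : ZMod w₂) - u) = 0 := by
      have := (ZMod.intCast_zmod_eq_zero_iff_dvd _ w₂).2 h3
      exact_mod_cast this
    apply two_ne w₂ inferInstance ho2
    linear_combination (-(n : ZMod w₂)) * h4 + hk2 - hun2

end Pool.Agent.H183.MU
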