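import Pool.Agent.H183.MU.Stm

/-!
# Project MU (helper183): `τ x` is a multiple of `x` modulo `p ^ e`
-/

set_option autoImplicit false

namespace Pool.Agent.H183.MU

open Finset

namespace LIFT

variable {G : Type} [CommGroup G]

theorem tau_of (k : ℕ) (g : G) : tau G k (MonoidAlgebra.of ℤ G g) = MonoidAlgebra.of ℤ G (g ^ k) := by
  rw [tau, MonoidAlgebra.of_apply, MonoidAlgebra.of_apply, MonoidAlgebra.mapDomainRingHom_apply,
    MonoidAlgebra.mapDomain_single]
  rfl

/-- Frobenius in the group ring modulo `p` -/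
theorem frob {p : ℕ} (hp : p.Prime) (k : ℕ) (x : MonoidAlgebra ℤ G) :
    (p : MonoidAlgebra ℤ G) ∣ x ^ p ^ k - tau G (p ^ k) x := by
  induction x using MonoidAlgebra.induction_on with
  | of g =>
    rw [tau_of, ← map_pow, sub_self]
    exact dvd_zero _
  | add x y hx hy =>
    obtain ⟨r, hr⟩ := exists_add_pow_prime_pow_eq hp x y k
    rw [hr, map_add]
    have h1 : x ^ p ^ k + y ^ p ^ k + (p : MonoidAlgebra ℤ G) * x * y * r -
        (tau G (p ^ k) x + tau G (p ^ k) y) =
        (x ^ p ^ k - tau G (p ^ k) x) + (y ^ p ^ k - tau G (p ^ k) y) +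
          (p : MonoidAlgebra ℤ G) * (x * y * r) := by ring
    rw [h1]
    exact dvd_add (dvd_add hx hy) (dvd_mul_right _ _)
  | smul a x hx =>
    have h1 : a • x = (a : MonoidAlgebra ℤ G) * x := zsmul_eq_mul x a
    rw [h1, mul_pow, map_mul, map_intCast]
    have h2 : (p : ℤ) ∣ a ^ p ^ k - a := by
      have : Fact p.Prime := ⟨hp⟩
      rw [← ZMod.intCast_zmod_eq_zero_iff_dvd]
      push_cast
      rw [ZMod.pow_card_pow, sub_self]
    obtain ⟨c, hc⟩ := h2
    have h3 : (a : MonoidAlgebra ℤ G) ^ p ^ k - a = p * c := by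
      have := congrArg (fun z : ℤ => (z : MonoidAlgebra ℤ G)) hc
      push_cast at this
      exact this
    have h4 : (a : MonoidAlgebra ℤ G) ^ p ^ k * x ^ p ^ k - (a : MonoidAlgebra ℤ G) * tau G (p ^ k) x =
        (a : MonoidAlgebra ℤ G) * (x ^ p ^ k - tau G (p ^ k) x) +
          (p : MonoidAlgebra ℤ G) * (c * x ^ p ^ k) := by
      linear_combination (x ^ p ^ k) * h3
    rw [h4]
    exact dvd_add (hx.mul_left _) (dvd_mul_right _ _)

theorem tau_id [Fintype G] {m : ℕ} (hm : m ≡ 1 [MOD Fintype.card G]) (x : MonoidAlgebra ℤ G) :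
    tau G m x = x := by
  induction x using MonoidAlgebra.induction_on with
  | of g =>
    rw [tau_of]
    congr 1
    have h1 : g ^ m = g ^ 1 := by
      rw [pow_eq_pow_iff_modEq]
      exact hm.of_dvd (orderOf_dvd_card)
    rw [h1, pow_one]
  | add x y hx hy => rw [map_add, hx, hy]
  | smul a x hx =>
    have h1 : a • x = (a : MonoidAlgebra ℤ G) * x := zsmul_eq_mul x a
    rw [h1, map_mul, map_intCast, hx]

end LIFT

open LIFT in
theorem t_LIFT : S_LIFT := by
  intro G _ _ p hp hpG e
  set P : MonoidAlgebra ℤ G := (p : MonoidAlgebra ℤ G) with hP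
  set f : ℕ := Nat.totient (Fintype.card G) with hf
  have hf1 : 0 < f := Nat.totient_pos.2 Fintype.card_pos
  set q : ℕ := p ^ f with hq
  have hq2 : 2 ≤ q := by
    calc 2 ≤ p := hp.two_le
      _ = p ^ 1 := (pow_one p).symm
      _ ≤ p ^ f := Nat.pow_le_pow_right hp.pos hf1
  have hq1 : q ≡ 1 [MOD Fintype.card G] :=
    Nat.ModEq.pow_totient ((Nat.Prime.coprime_iff_not_dvd hp).2 hpG)
  have hfq : ∀ x : MonoidAlgebra ℤ G, P ∣ x ^ q - x := by
    intro x
    have h1 := frob hp f x
    rwa [tau_id hq1] at h1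
  have hfp : ∀ x : MonoidAlgebra ℤ G, P ∣ tau G p x - x ^ p := by
    intro x
    have h1 := frob hp 1 x
    rw [pow_one] at h1
    rw [← dvd_neg, neg_sub]
    exact h1
  induction e with
  | zero =>
    intro x
    exact ⟨0, by rw [pow_zero]; exact one_dvd _⟩
  | succ e ih =>
    intro x
    set M : ℕ := (q - 1) * p ^ e with hM
    have hM1 : 1 ≤ M := Nat.mul_pos (by omega) (pow_pos hp.pos _)
    set E : MonoidAlgebra ℤ G := x ^ M with hE
    -- `E ^ 2 ≡ E`
    have hE2 : P ^ (e + 1) ∣ E ^ 2 - E := by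
      have h1 : P ∣ (x ^ (q - 1)) ^ 2 - x ^ (q - 1) := by
        have h2 : (x ^ (q - 1)) ^ 2 - x ^ (q - 1) = x ^ (q - 2) * (x ^ q - x) := by
          rw [mul_sub, ← pow_add, ← pow_succ, ← pow_mul]
          congr 2 <;> omega
        rw [h2]
        exact (hfq x).mul_left _
      have h3 := dvd_sub_pow_of_dvd_sub h1 e
      have h4 : ((x ^ (q - 1)) ^ 2) ^ p ^ e = E ^ 2 := by
        rw [hE, hM, ← pow_mul, ← pow_mul, ← pow_mul]
        congr 1
        ring
      have h5 : (x ^ (q - 1)) ^ p ^ e = E := by rw [hE, hM, ← pow_mul]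
      rwa [h4, h5] at h3
    have hEp : P ^ (e + 1) ∣ E ^ p - E := by
      have h1 : E ^ p - E = E * (E ^ (p - 1) - 1) := by
        rw [mul_sub, mul_one, ← pow_succ', Nat.sub_add_cancel hp.pos]
      have h2 : E - 1 ∣ E ^ (p - 1) - 1 := sub_one_dvd_pow_sub_one _ _
      obtain ⟨c, hc⟩ := h2
      rw [h1, hc]
      have h3 : E * ((E - 1) * c) = (E ^ 2 - E) * c := by ring
      rw [h3]
      exact hE2.mul_right _
    have hτE : P ^ (e + 1) ∣ tau G p E - E := by
      have h1 := dvd_sub_pow_of_dvd_sub (hfp x) e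
      have h2 : tau G p E - E ^ p = ((tau G p x) ^ p ^ e) ^ (q - 1) - ((x ^ p) ^ p ^ e) ^ (q - 1) := by
        rw [hE, hM, map_pow, ← pow_mul, ← pow_mul, ← pow_mul, ← pow_mul]
        congr 2 <;> ring
      have h3 : P ^ (e + 1) ∣ tau G p E - E ^ p := by
        rw [h2]
        exact h1.trans (sub_dvd_pow_sub_pow _ _ _)
      have h4 : tau G p E - E = (tau G p E - E ^ p) + (E ^ p - E) := by ring
      rw [h4]
      exact dvd_add h3 hEp
    have hx : ∀ n : ℕ, P ∣ x ^ (1 + (q - 1) * n) - x := by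
      intro n
      induction n with
      | zero =>
        rw [mul_zero, add_zero, pow_one, sub_self]
        exact dvd_zero _
      | succ n ihn =>
        have h1 : x ^ (1 + (q - 1) * (n + 1)) - x =
            (x ^ (1 + (q - 1) * n) - x) * x ^ (q - 1) + (x ^ q - x) := by
          have h2 : x ^ (1 + (q - 1) * (n + 1)) = x ^ (1 + (q - 1) * n) * x ^ (q - 1) := by
            rw [← pow_add]
            congr 1
            ring
          have h3 : x ^ q = x * x ^ (q - 1) := by
            rw [← pow_succ']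
            congr 1
            omega
          rw [h2, h3]
          ring
        rw [h1]
        exact dvd_add (ihn.mul_right _) (hfq x)
    obtain ⟨x₁, hx₁⟩ : P ∣ (1 - E) * x := by
      have h1 : (1 - E) * x = -(x ^ (1 + (q - 1) * p ^ e) - x) := by
        rw [hE, hM, pow_add, pow_one]
        ring
      rw [h1]
      exact (dvd_neg).2 (hx _)
    obtain ⟨r, s, hs⟩ := ih x₁
    refine ⟨x ^ (M - 1) * tau G p x + (1 - E) * r, ?_⟩
    have hEx : x * x ^ (M - 1) = E := by
      rw [← pow_succ', Nat.sub_add_cancel hM1]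
    have h1 : (1 - tau G p E) * tau G p x = P * tau G p x₁ := by
      have h2 := congrArg (tau G p) hx₁
      rw [map_mul, map_sub, map_one, map_mul, hP, map_natCast] at h2
      exact h2
    have h2 : tau G p x - x * (x ^ (M - 1) * tau G p x + (1 - E) * r) =
        P ^ (e + 1) * s + (tau G p E - E) * tau G p x := by
      rw [pow_succ]
      linear_combination (-tau G p x) * hEx + h1 - r * hx₁ + P * hs
    rw [h2]
    exact dvd_add (dvd_mul_right _ _) (hτE.mul_right _)

end Pool.Agent.H183.MU
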