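import Pool.Agent.H183.MU.Stm

set_option autoImplicit false

namespace Pool.Agent.H183.MU

open Finset Filter Topology

namespace MER

theorem pi_small (δ : ℝ) (hδ : 0 < δ) : ∃ X₀ : ℕ, ∀ X : ℕ, X₀ ≤ X →
    ((Nat.primeCounting X : ℕ) : ℝ) ≤ δ * X := by
  have h1 := Chebyshev.eventually_primeCounting_le (ε := 1) one_pos
  have h2 : ∀ᶠ x : ℝ in atTop, (Real.log 4 + 1) / δ ≤ Real.log x :=
    Real.tendsto_log_atTop.eventually_ge_atTop _
  have h3 := (h1.and (h2.and (eventually_gt_atTop (1 : ℝ))))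
  have h4 := (tendsto_natCast_atTop_atTop (R := ℝ)).eventually h3
  obtain ⟨N, hN⟩ := eventually_atTop.1 h4
  refine ⟨N, fun X hX => ?_⟩
  obtain ⟨a1, a2, a3⟩ := hN X hX
  rw [Nat.floor_natCast] at a1
  refine a1.trans ?_
  have hl : 0 < Real.log X := Real.log_pos a3
  rw [div_le_iff₀ hl]
  have h5 : Real.log 4 + 1 ≤ Real.log X * δ := (div_le_iff₀ hδ).1 a2
  have hX0 : (0 : ℝ) ≤ X := Nat.cast_nonneg X
  nlinarith [mul_le_mul_of_nonneg_right h5 hX0]

end MER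

open MER in
theorem t_MER (h : S_MERT) : S_MER := by
  intro K hK ε hε
  have hK4 : (4 : ℝ) ≤ K := by exact_mod_cast hK
  have hK2 : (0 : ℝ) < (K : ℝ) - 2 := by linarith
  have hK3 : (0 : ℝ) < (K : ℝ) - 3 := by linarith
  set θ : ℝ := ((K : ℝ) - 3) / ((K : ℝ) - 2) with hθ
  have hθ0 : 0 < θ := div_pos hK3 hK2
  have hθ1 : θ < 1 := by rw [hθ, div_lt_one hK2]; linarith
  have hθ2 : 1 / 2 ≤ θ := by rw [hθ, div_le_div_iff₀ two_pos hK2]; linarith
  obtain ⟨X1, h1⟩ := h θ hθ0 hθ1 2 two_pos (ε / 2) (half_pos hε)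
  obtain ⟨X2, h2⟩ := pi_small (ε / 2) (half_pos hε)
  refine ⟨max X1 (max X2 4), fun X hX => ?_⟩
  have hX1 : X1 ≤ X := le_trans (le_max_left _ _) hX
  have hX2 : X2 ≤ X := le_trans (le_trans (le_max_left _ _) (le_max_right _ _)) hX
  have hX4 : 4 ≤ X := le_trans (le_trans (le_max_right _ _) (le_max_right _ _)) hX
  have hXr : (4 : ℝ) ≤ X := by exact_mod_cast hX4
  have hXp : (0 : ℝ) < X := by linarith
  set P : Finset ℕ := (Icc 1 X).filter (fun p : ℕ => p.Prime ∧ 2 * (X : ℝ) ^ θ ≤ p) with hP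
  have e1 := h1 X hX1
  have e2 := h2 X hX2
  have hinv : 1 / θ = ((K : ℝ) - 2) / ((K : ℝ) - 3) := by rw [hθ, one_div_div]
  rw [hinv] at e1
  have hXθ0 : 0 ≤ (X : ℝ) ^ θ := Real.rpow_nonneg hXp.le _
  -- powers
  have hpow : ((X : ℝ) ^ θ) ^ (K - 2) = (X : ℝ) ^ (K - 3) := by
    rw [← Real.rpow_natCast, ← Real.rpow_mul hXp.le, ← Real.rpow_natCast (X : ℝ) (K - 3)]
    congr 1
    rw [Nat.cast_sub (by omega), Nat.cast_sub (by omega), hθ]
    push_cast
    field_simp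
  have hsq : (X : ℝ) ≤ ((X : ℝ) ^ θ) * ((X : ℝ) ^ θ) := by
    rw [← Real.rpow_add hXp]
    calc (X : ℝ) = (X : ℝ) ^ (1 : ℝ) := (Real.rpow_one _).symm
      _ ≤ _ := Real.rpow_le_rpow_of_exponent_le (by linarith) (by linarith)
  have key : ∀ p ∈ P, ∀ n : ℕ, n ≤ X → 2 * n ^ (K - 3) ≤ p ^ (K - 2) := by
    intro p hp n hn
    rw [hP, mem_filter] at hp
    have h3 : (2 * (X : ℝ) ^ θ) ^ (K - 2) ≤ (p : ℝ) ^ (K - 2) :=
      pow_le_pow_left₀ (by positivity) hp.2.2 _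
    rw [mul_pow, hpow] at h3
    have h4 : (2 : ℝ) ≤ 2 ^ (K - 2) := by
      calc (2 : ℝ) = 2 ^ 1 := (pow_one _).symm
        _ ≤ _ := pow_le_pow_right₀ (by norm_num) (by omega)
    have h5 : (n : ℝ) ^ (K - 3) ≤ (X : ℝ) ^ (K - 3) :=
      pow_le_pow_left₀ (Nat.cast_nonneg _) (by exact_mod_cast hn) _
    have h6 : (0 : ℝ) ≤ (n : ℝ) ^ (K - 3) := by positivity
    have h7 : (2 : ℝ) * (n : ℝ) ^ (K - 3) ≤ (p : ℝ) ^ (K - 2) := by nlinarith
    exact_mod_cast h7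
  set T : Set ℕ := {n : ℕ | 2 ≤ n ∧ n ≤ X ∧ ∃ p : ℕ, p.Prime ∧ p ∣ n ∧
      2 * n ^ (K - 3) ≤ p ^ (K - 2)} with hT
  have hTf : T.Finite := (Set.finite_Icc 2 X).subset (fun n hn => ⟨hn.1, hn.2.1⟩)
  have hdisj : ∀ p ∈ P, ∀ q ∈ P, p ≠ q →
      Disjoint ((Icc 1 (X / p)).image (fun t => p * t)) ((Icc 1 (X / q)).image (fun t => q * t)) := by
    intro p hp q hq hne
    rw [Finset.disjoint_left]
    intro n hn hn'
    rw [mem_image] at hn hn'
    obtain ⟨a, ha, rfl⟩ := hn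
    obtain ⟨b, hb, hab⟩ := hn'
    rw [mem_Icc] at ha hb
    rw [hP, mem_filter] at hp hq
    have hcop : Nat.Coprime p q := (Nat.coprime_primes hp.2.1 hq.2.1).2 hne
    have hd1 : p ∣ p * a := dvd_mul_right _ _
    have hd2 : q ∣ p * a := hab ▸ dvd_mul_right q b
    have hd : p * q ∣ p * a := hcop.mul_dvd_of_dvd_of_dvd hd1 hd2
    have hle : p * q ≤ p * a := Nat.le_of_dvd (Nat.mul_pos hp.2.1.pos (by omega)) hd
    have hle2 : p * a ≤ X := (Nat.mul_le_mul_left p ha.2).trans (Nat.mul_div_le X p)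
    have hle3 : (p : ℝ) * q ≤ X := by exact_mod_cast hle.trans hle2
    have h8 : (2 * (X : ℝ) ^ θ) * (2 * (X : ℝ) ^ θ) ≤ (p : ℝ) * q :=
      mul_le_mul hp.2.2 hq.2.2 (by positivity) (by positivity)
    nlinarith
  set U : Finset ℕ := P.biUnion (fun p => (Icc 1 (X / p)).image (fun t => p * t)) with hU
  have hUc : U.card = ∑ p ∈ P, X / p := by
    rw [hU, card_biUnion hdisj]
    refine sum_congr rfl fun p hp => ?_
    rw [hP, mem_filter] at hp
    rw [card_image_of_injective _ (fun a b hab => Nat.eq_of_mul_eq_mul_left hp.2.1.pos hab),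
      Nat.card_Icc, Nat.add_sub_cancel]
  have hUT : (U : Set ℕ) ⊆ T := by
    intro n hn
    rw [mem_coe, hU, mem_biUnion] at hn
    obtain ⟨p, hp, hn⟩ := hn
    rw [mem_image] at hn
    obtain ⟨a, ha, rfl⟩ := hn
    rw [mem_Icc] at ha
    have hle2 : p * a ≤ X := (Nat.mul_le_mul_left p ha.2).trans (Nat.mul_div_le X p)
    have hp' := hp
    rw [hP, mem_filter] at hp'
    refine ⟨?_, hle2, p, hp'.2.1, dvd_mul_right _ _, key p hp _ hle2⟩
    calc 2 ≤ p := hp'.2.1.two_le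
      _ = p * 1 := (mul_one p).symm
      _ ≤ p * a := Nat.mul_le_mul_left p ha.1
  have hcard : (U.card : ℝ) ≤ (T.ncard : ℝ) := by
    have := Set.ncard_le_ncard hUT hTf
    rw [Set.ncard_coe_finset] at this
    exact_mod_cast this
  have hPcard : (P.card : ℝ) ≤ ((Nat.primeCounting X : ℕ) : ℝ) := by
    have : P.card ≤ Nat.primeCounting X := by
      rw [Nat.primeCounting, Nat.primeCounting', Nat.count_eq_card_filter_range]
      refine card_le_card fun p hp => ?_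
      rw [hP, mem_filter, mem_Icc] at hp
      rw [mem_filter, mem_range]
      exact ⟨by omega, hp.2.1⟩
    exact_mod_cast this
  have hsum : (X : ℝ) * (∑ p ∈ P, (1 : ℝ) / p) - P.card ≤ U.card := by
    rw [hUc]
    push_cast
    rw [mul_sum, card_eq_sum_ones]
    push_cast
    rw [← sum_sub_distrib]
    refine sum_le_sum fun p hp => ?_
    have h9 : (X : ℝ) / p - 1 ≤ ((X / p : ℕ) : ℝ) := by
      have := Nat.lt_floor_add_one ((X : ℝ) / p)
      rw [Nat.floor_div_eq_div] at this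
      linarith
    rw [mul_one_div]
    exact h9
  have h10 := mul_le_mul_of_nonneg_left e1 hXp.le
  nlinarith

end Pool.Agent.H183.MU
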