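import Pool.Agent.H183.MU.Stm
import Pool.Graph.R_seed8.Helper923.HMertens

set_option autoImplicit false

namespace Pool.Agent.H183.MU

open Finset Filter Topology

namespace MERT

theorem lim1 (c θ : ℝ) (hθ : 0 < θ) :
    Tendsto (fun L : ℝ => L / (c + θ * L)) atTop (𝓝 (1 / θ)) := by
  have h1 : Tendsto (fun L : ℝ => (c / L + θ)⁻¹) atTop (𝓝 (0 + θ)⁻¹) :=
    ((tendsto_const_nhds.div_atTop tendsto_id).add_const θ).inv₀ (by rw [zero_add]; exact hθ.ne')
  rw [zero_add, ← one_div] at h1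
  refine h1.congr' ?_
  filter_upwards [eventually_gt_atTop (0 : ℝ)] with L hL
  have e : c / L + θ = (c + θ * L) / L := by field_simp
  rw [e, inv_div]

theorem lim2 (c θ : ℝ) (hθ : 0 < θ) : Tendsto (fun L : ℝ => c + θ * L) atTop atTop :=
  tendsto_atTop_add_const_left _ _ (tendsto_id.const_mul_atTop hθ)

end MERT

open MERT in
theorem t_MERT : S_MERT := by
  intro θ hθ hθ1 C hC ε hε
  obtain ⟨C1, hC1, hM⟩ := Pool.Agent.Helper923.HMertens.mertens_ratio
  have hlogX : Tendsto (fun X : ℕ => Real.log X) atTop atTop :=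
    Real.tendsto_log_atTop.comp tendsto_natCast_atTop_atTop
  have t1 : Tendsto (fun L : ℝ => Real.log (L / (Real.log (C + 1) + θ * L))) atTop
      (𝓝 (Real.log (1 / θ))) :=
    (lim1 (Real.log (C + 1)) θ hθ).log (by positivity)
  have t2 : Tendsto (fun L : ℝ => C1 / (Real.log C + θ * L)) atTop (𝓝 0) :=
    tendsto_const_nhds.div_atTop (lim2 _ θ hθ)
  have t3 := lim2 (Real.log C) θ hθ
  have t4 := lim2 (-Real.log (C + 1)) (1 - θ) (by linarith)
  have t5 := lim2 (Real.log (C + 1)) θ hθ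
  have ev : ∀ᶠ X : ℕ in atTop,
      Real.log (1 / θ) - ε / 2 < Real.log (Real.log X / (Real.log (C + 1) + θ * Real.log X)) ∧
      C1 / (Real.log C + θ * Real.log X) < ε / 2 ∧
      Real.log 2 ≤ Real.log C + θ * Real.log X ∧
      0 ≤ -Real.log (C + 1) + (1 - θ) * Real.log X ∧ 1 ≤ Real.log X ∧ 1 ≤ X ∧
      0 < Real.log (C + 1) + θ * Real.log X := by
    refine (hlogX.eventually (t1.eventually (lt_mem_nhds (by linarith)))).and
      ((hlogX.eventually (t2.eventually (gt_mem_nhds (by positivity)))).and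
      ((hlogX.eventually (t3.eventually (eventually_ge_atTop _))).and
      ((hlogX.eventually (t4.eventually (eventually_ge_atTop _))).and
      ((hlogX.eventually (eventually_ge_atTop _)).and
      ((eventually_ge_atTop _).and (hlogX.eventually (t5.eventually (eventually_gt_atTop _))))))))
  obtain ⟨X₀, hX₀⟩ := eventually_atTop.mp ev
  refine ⟨X₀, fun X hX => ?_⟩
  obtain ⟨h1, h2, h3, h4, h5, h6, h7⟩ := hX₀ X hX
  have hX0 : (0 : ℝ) < X := by exact_mod_cast h6
  obtain ⟨L, hL⟩ : ∃ L, L = Real.log X := ⟨_, rfl⟩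
  rw [← hL] at h1 h2 h3 h4 h5 h7
  have hXθ : (X : ℝ) ^ θ = Real.exp (θ * L) := by
    rw [Real.rpow_def_of_pos hX0, hL]
    congr 1
    ring
  have hCX : C * (X : ℝ) ^ θ = Real.exp (Real.log C + θ * L) := by
    rw [Real.exp_add, Real.exp_log hC, hXθ]
  have hCX1 : (C + 1) * (X : ℝ) ^ θ = Real.exp (Real.log (C + 1) + θ * L) := by
    rw [Real.exp_add, Real.exp_log (by linarith), hXθ]
  have hone : 1 ≤ (X : ℝ) ^ θ := by
    rw [hXθ]
    exact Real.one_le_exp (by positivity)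
  obtain ⟨a, ha⟩ : ∃ a : ℕ, a = ⌈C * (X : ℝ) ^ θ⌉₊ := ⟨_, rfl⟩
  have ha1 : C * (X : ℝ) ^ θ ≤ a := by rw [ha]; exact Nat.le_ceil _
  have ha2 : (a : ℝ) ≤ (C + 1) * (X : ℝ) ^ θ := by
    have h8 : (a : ℝ) < C * (X : ℝ) ^ θ + 1 := by
      rw [ha]
      exact Nat.ceil_lt_add_one (by positivity)
    linarith
  have ha3 : (2 : ℝ) ≤ a := by
    refine le_trans ?_ ha1
    rw [hCX, ← Real.exp_log (by norm_num : (0 : ℝ) < 2)]
    exact Real.exp_le_exp.mpr h3
  have ha4 : (a : ℝ) ≤ X := by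
    refine ha2.trans ?_
    rw [hCX1]
    calc Real.exp (Real.log (C + 1) + θ * L) ≤ Real.exp L := Real.exp_le_exp.mpr (by linarith)
      _ = X := by rw [hL, Real.exp_log hX0]
  have ha3' : 2 ≤ a := by exact_mod_cast ha3
  have ha4' : a ≤ X := by exact_mod_cast ha4
  have hla1 : Real.log C + θ * L ≤ Real.log a := by
    rw [Real.le_log_iff_exp_le (by linarith), ← hCX]
    exact ha1
  have hla2 : Real.log a ≤ Real.log (C + 1) + θ * L := by
    rw [Real.log_le_iff_le_exp (by linarith), ← hCX1]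
    exact ha2
  have hl2 : 0 < Real.log 2 := Real.log_pos (by norm_num)
  have hmain := (abs_le.mp (hM a X ha3' ha4')).1
  have hlow : Real.log (L / (Real.log (C + 1) + θ * L)) ≤ Real.log (Real.log X / Real.log a) := by
    rw [← hL]
    refine Real.log_le_log (by positivity) ?_
    exact div_le_div_of_nonneg_left (by linarith) (by linarith) hla2
  have herr : C1 / Real.log a ≤ C1 / (Real.log C + θ * L) :=
    div_le_div_of_nonneg_left hC1 (by linarith) hla1
  have hsub : ∑ p ∈ (Finset.Ioc a X).filter Nat.Prime, (1 : ℝ) / p ≤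
      ∑ p ∈ (Icc 1 X).filter (fun p : ℕ => p.Prime ∧ C * (X : ℝ) ^ θ ≤ p), (1 : ℝ) / p := by
    refine Finset.sum_le_sum_of_subset_of_nonneg ?_ (fun p _ _ => by positivity)
    intro p hp
    rw [Finset.mem_filter, Finset.mem_Ioc] at hp
    rw [Finset.mem_filter, Finset.mem_Icc]
    refine ⟨⟨hp.2.one_lt.le, hp.1.2⟩, hp.2, ha1.trans ?_⟩
    exact_mod_cast hp.1.1.le
  linarith

end Pool.Agent.H183.MU
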