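import Pool.Agent.H183.MU.Stm

set_option autoImplicit false
set_option linter.unusedSectionVars false

namespace Pool.Agent.H183.MU

open Finset

namespace MULT

open MonoidAlgebra (single)

variable {G : Type} [CommGroup G] [Fintype G] [DecidableEq G]

/-- `∑ d ∈ D, f d` in the group ring -/
noncomputable def Sm (D : Finset G) (f : G → G) : MonoidAlgebra ℤ G := ∑ d ∈ D, single (f d) 1

/-- the sum of the coefficients -/
noncomputable def ep (y : MonoidAlgebra ℤ G) : ℤ := ∑ g, y.coeff g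

theorem coeff_Sm (D : Finset G) (f : G → G) (h : G) :
    (Sm D f).coeff h = ((D.filter (fun d => f d = h)).card : ℤ) := by
  unfold Sm
  rw [MonoidAlgebra.coeff_sum, Finsupp.finsetSum_apply, Finset.card_filter]
  push_cast
  refine Finset.sum_congr rfl fun d _ => ?_
  rw [MonoidAlgebra.coeff_single, Finsupp.single_apply]

theorem rep (y : MonoidAlgebra ℤ G) : y = ∑ g, single g (y.coeff g) := by
  refine MonoidAlgebra.ext (Finsupp.ext fun h => ?_)
  rw [MonoidAlgebra.coeff_sum, Finsupp.finsetSum_apply]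
  rw [Finset.sum_eq_single h]
  · rw [MonoidAlgebra.coeff_single, Finsupp.single_eq_same]
  · intro b _ hb
    rw [MonoidAlgebra.coeff_single, Finsupp.single_apply, if_neg hb]
  · intro hh
    exact absurd (mem_univ _) hh

theorem coeff_mul' (x y : MonoidAlgebra ℤ G) (m : G) :
    (x * y).coeff m = ∑ g, x.coeff g * y.coeff (g⁻¹ * m) := by
  rw [MonoidAlgebra.coeff_mul_apply_left, Finsupp.sum_fintype]
  intro g
  rw [zero_mul]

theorem coeff_int_mul (n : ℤ) (y : MonoidAlgebra ℤ G) (m : G) :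
    ((n : MonoidAlgebra ℤ G) * y).coeff m = n * y.coeff m := by
  rw [MonoidAlgebra.intCast_def, MonoidAlgebra.coeff_single_mul_apply, inv_one, one_mul]
  rfl

theorem coeff_int (n : ℤ) (m : G) :
    ((n : MonoidAlgebra ℤ G)).coeff m = if m = 1 then n else 0 := by
  rw [MonoidAlgebra.intCast_def, MonoidAlgebra.coeff_single, Finsupp.single_apply]
  by_cases h : m = 1
  · rw [if_pos h, if_pos h.symm]; rfl
  · rw [if_neg h, if_neg (fun h' => h h'.symm)]

theorem coeff_Gam (h : G) : (Sm (univ : Finset G) id).coeff h = 1 := by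
  rw [coeff_Sm]
  have h1 : (univ : Finset G).filter (fun d => id d = h) = {h} := by
    ext d
    simp
  rw [h1, card_singleton, Nat.cast_one]

theorem Gam_mul (y : MonoidAlgebra ℤ G) :
    Sm (univ : Finset G) id * y = (ep y : MonoidAlgebra ℤ G) * Sm (univ : Finset G) id := by
  refine MonoidAlgebra.ext (Finsupp.ext fun m => ?_)
  rw [coeff_mul', coeff_int_mul, coeff_Gam, mul_one]
  unfold ep
  simp_rw [coeff_Gam, one_mul]
  exact Fintype.sum_equiv ((Equiv.inv G).trans (Equiv.mulRight m)) _ _ fun g => rfl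

theorem ep_int_mul (n : ℤ) (y : MonoidAlgebra ℤ G) :
    ep ((n : MonoidAlgebra ℤ G) * y) = n * ep y := by
  unfold ep
  simp_rw [coeff_int_mul]
  rw [Finset.mul_sum]

theorem ep_add (x y : MonoidAlgebra ℤ G) : ep (x + y) = ep x + ep y := by
  unfold ep
  rw [← Finset.sum_add_distrib]
  rfl

theorem ep_mul (x y : MonoidAlgebra ℤ G) : ep (x * y) = ep x * ep y := by
  have h1 := Gam_mul (x * y)
  rw [← mul_assoc, Gam_mul x, mul_assoc, Gam_mul y] at h1
  have h2 := congrArg (fun z => z.coeff 1) h1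
  simp only [coeff_int_mul, coeff_Gam, mul_one] at h2
  exact h2.symm

theorem ep_Sm (D : Finset G) (f : G → G) : ep (Sm D f) = D.card := by
  unfold ep
  simp_rw [coeff_Sm]
  rw [← Nat.cast_sum]
  congr 1
  exact (Finset.card_eq_sum_card_fiberwise fun _ _ => mem_coe.mpr (mem_univ _)).symm

theorem map_Sm (u : G →* G) (D : Finset G) (f : G → G) :
    MonoidAlgebra.mapDomainRingHom ℤ u (Sm D f) = Sm D (fun d => u (f d)) := by
  unfold Sm
  rw [map_sum]
  refine Finset.sum_congr rfl fun d _ => ?_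
  rw [MonoidAlgebra.mapDomainRingHom_apply, MonoidAlgebra.mapDomain_single]

/-- the automorphism `g ↦ g⁻¹` -/
noncomputable def io (G : Type) [CommGroup G] : MonoidAlgebra ℤ G →+* MonoidAlgebra ℤ G :=
  MonoidAlgebra.mapDomainRingHom ℤ (invMonoidHom : G →* G)

theorem coeff_io (y : MonoidAlgebra ℤ G) (u : G) : (io G y).coeff u = y.coeff u⁻¹ := by
  have h1 : io G y = ∑ g, single g⁻¹ (y.coeff g) := by
    conv_lhs => rw [rep y]
    unfold io
    rw [map_sum]
    refine Finset.sum_congr rfl fun g _ => ?_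
    rw [MonoidAlgebra.mapDomainRingHom_apply, MonoidAlgebra.mapDomain_single]
    rfl
  rw [h1, MonoidAlgebra.coeff_sum, Finsupp.finsetSum_apply, Finset.sum_eq_single u⁻¹]
  · rw [MonoidAlgebra.coeff_single, inv_inv, Finsupp.single_eq_same]
  · intro b _ hb
    rw [MonoidAlgebra.coeff_single, Finsupp.single_apply, if_neg]
    rintro rfl
    exact hb (inv_inv b).symm
  · intro hh
    exact absurd (mem_univ _) hh

theorem io_Gam : io G (Sm (univ : Finset G) id) = Sm (univ : Finset G) id := by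
  refine MonoidAlgebra.ext (Finsupp.ext fun m => ?_)
  rw [coeff_io, coeff_Gam, coeff_Gam]

theorem tau_Gam {p : ℕ} (hp : Nat.Coprime (Fintype.card G) p) :
    tau G p (Sm (univ : Finset G) id) = Sm (univ : Finset G) id := by
  unfold tau
  rw [map_Sm]
  unfold Sm
  rw [← Nat.card_eq_fintype_card] at hp
  exact Fintype.sum_equiv (powCoprime hp) _ _ fun g => rfl

/-- the equation of a difference set -/
theorem ds_eq {D : Finset G} {k lam : ℕ} (h : IsDS D k lam) :
    Sm D id * Sm D (fun d => d⁻¹) = (((k : ℤ) - lam : ℤ) : MonoidAlgebra ℤ G) +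
      ((lam : ℤ) : MonoidAlgebra ℤ G) * Sm (univ : Finset G) id := by
  refine MonoidAlgebra.ext (Finsupp.ext fun m => ?_)
  have h1 : Sm D id * Sm D (fun d => d⁻¹) = ∑ q ∈ D ×ˢ D, single (q.1 * q.2⁻¹) 1 := by
    unfold Sm
    rw [Finset.sum_mul_sum, Finset.sum_product]
    refine Finset.sum_congr rfl fun a _ => Finset.sum_congr rfl fun b _ => ?_
    rw [MonoidAlgebra.single_mul_single, mul_one]
    rfl
  have h2 : (Sm D id * Sm D (fun d => d⁻¹)).coeff m =
      (((D ×ˢ D).filter (fun q : G × G => q.1 * q.2⁻¹ = m)).card : ℤ) := by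
    rw [h1, MonoidAlgebra.coeff_sum, Finsupp.finsetSum_apply, Finset.card_filter]
    push_cast
    refine Finset.sum_congr rfl fun d _ => ?_
    rw [MonoidAlgebra.coeff_single, Finsupp.single_apply]
  rw [h2, MonoidAlgebra.coeff_add, Finsupp.add_apply, coeff_int, coeff_int_mul, coeff_Gam, mul_one]
  by_cases hm : m = 1
  · rw [if_pos hm]
    have h3 : (D ×ˢ D).filter (fun q : G × G => q.1 * q.2⁻¹ = m) = D.image (fun d => (d, d)) := by
      ext ⟨a, b⟩
      simp only [mem_filter, mem_product, mem_image, Prod.mk.injEq, hm, mul_inv_eq_one]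
      constructor
      · rintro ⟨⟨ha, _⟩, rfl⟩
        exact ⟨a, ha, rfl, rfl⟩
      · rintro ⟨d, hd, rfl, rfl⟩
        exact ⟨⟨hd, hd⟩, rfl⟩
    rw [h3, Finset.card_image_of_injective _ (fun a b hab => (Prod.mk.inj hab).1), h.1]
    ring
  · rw [if_neg hm, h.2 m hm]
    ring

theorem io_Sm (D : Finset G) (f : G → G) : io G (Sm D f) = Sm D (fun d => (f d)⁻¹) := by
  unfold io
  rw [map_Sm]
  rfl

/-- an element with nonnegative coefficients and `F ι(F) = N ^ 2` is trivial -/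
theorem triv {F : MonoidAlgebra ℤ G} {N : ℤ} (hN : 0 < N) (hF : ∀ g, 0 ≤ F.coeff g)
    (hFF : F * io G F = ((N ^ 2 : ℤ) : MonoidAlgebra ℤ G)) : ∃ g₀, F = (N : MonoidAlgebra ℤ G) * single g₀ 1 := by
  have hc : ∀ m, ∑ g, F.coeff g * F.coeff (m⁻¹ * g) = if m = 1 then N ^ 2 else 0 := by
    intro m
    rw [← coeff_int, ← hFF, coeff_mul']
    refine Finset.sum_congr rfl fun g _ => ?_
    rw [coeff_io, mul_inv_rev, inv_inv]
  have hz : ∀ g h, g ≠ h → F.coeff g * F.coeff h = 0 := by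
    intro g h hgh
    have h1 := hc (g * h⁻¹)
    rw [if_neg (fun h' => hgh (mul_inv_eq_one.mp h'))] at h1
    have h2 := (Finset.sum_eq_zero_iff_of_nonneg
      (fun a _ => mul_nonneg (hF a) (hF ((g * h⁻¹)⁻¹ * a)))).mp h1 g (mem_univ _)
    rw [mul_inv_rev, inv_inv, mul_assoc, inv_mul_cancel, mul_one] at h2
    exact h2
  have h1 := hc 1
  rw [if_pos rfl] at h1
  simp only [inv_one, one_mul] at h1
  have hex : ∃ g₀, F.coeff g₀ ≠ 0 := by
    by_contra hno
    push Not at hno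
    rw [Finset.sum_eq_zero (fun g _ => by rw [hno g, zero_mul])] at h1
    exact (pow_pos hN 2).ne h1
  obtain ⟨g₀, hg₀⟩ := hex
  have hoth : ∀ g, g ≠ g₀ → F.coeff g = 0 := by
    intro g hg
    rcases mul_eq_zero.mp (hz g g₀ hg) with h | h
    · exact h
    · exact absurd h hg₀
  refine ⟨g₀, MonoidAlgebra.ext (Finsupp.ext fun m => ?_)⟩
  rw [coeff_int_mul, MonoidAlgebra.coeff_single, Finsupp.single_apply]
  rw [Finset.sum_eq_single g₀ (fun b _ hb => by rw [hoth b hb, zero_mul])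
    (fun h => absurd (mem_univ _) h)] at h1
  have h2 : F.coeff g₀ = N := by
    have h3 : F.coeff g₀ ^ 2 = N ^ 2 := by rw [sq]; exact h1
    exact (pow_left_inj₀ (hF g₀) hN.le two_ne_zero).mp h3
  by_cases hm : g₀ = m
  · subst hm
    rw [if_pos rfl, mul_one, h2]
  · rw [if_neg hm, mul_zero, hoth m (fun h => hm h.symm)]

theorem int_mul_cancel {N : ℤ} (hN : N ≠ 0) {a b : MonoidAlgebra ℤ G}
    (h : (N : MonoidAlgebra ℤ G) * a = (N : MonoidAlgebra ℤ G) * b) : a = b := by
  refine MonoidAlgebra.ext (Finsupp.ext fun m => ?_)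
  have h1 := congrArg (fun z => z.coeff m) h
  simp only [coeff_int_mul] at h1
  exact mul_left_cancel₀ hN h1

theorem single_mul_Sm (g : G) (D : Finset G) (f : G → G) :
    single g 1 * Sm D f = Sm D (fun d => g * f d) := by
  unfold Sm
  rw [Finset.mul_sum]
  refine Finset.sum_congr rfl fun d _ => ?_
  rw [MonoidAlgebra.single_mul_single, mul_one]

theorem image_eq_of_Sm {D : Finset G} {f f' : G → G} (h : Sm D f = Sm D f') :
    D.image f = D.image f' := by
  have key : ∀ (f₁ : G → G) (m : G), m ∈ D.image f₁ ↔ (Sm D f₁).coeff m ≠ 0 := by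
    intro f₁ m
    rw [coeff_Sm, Nat.cast_ne_zero, Finset.card_ne_zero, mem_image]
    constructor
    · rintro ⟨a, ha, hfa⟩
      exact ⟨a, mem_filter.mpr ⟨ha, hfa⟩⟩
    · rintro ⟨a, ha⟩
      exact ⟨a, (mem_filter.mp ha).1, (mem_filter.mp ha).2⟩
  ext m
  rw [key, key, h]

theorem coeff_Sm_nonneg (D : Finset G) (f : G → G) (h : G) : 0 ≤ (Sm D f).coeff h := by
  rw [coeff_Sm]
  exact Nat.cast_nonneg _

end MULT

open MULT in
open MonoidAlgebra (single) in
theorem t_MULT (hL : S_LIFT) : S_MULT := by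
  intro G _ _ _ D k lam p e hD hp hpG hpk hlk hpe hle
  set x := Sm D id with hx
  set x' := Sm D (fun d => d⁻¹) with hx'
  set Γ := Sm (univ : Finset G) id with hΓ
  have hcop : Nat.Coprime (Fintype.card G) p := ((hp.coprime_iff_not_dvd).mpr hpG).symm
  have h1 := ds_eq hD
  rw [← hx, ← hx', ← hΓ] at h1
  obtain ⟨N, hN⟩ : ∃ N : ℤ, N = (k : ℤ) - lam := ⟨_, rfl⟩
  have hN0 : 0 < N := by rw [hN]; have : (lam : ℤ) < k := by exact_mod_cast hlk
                         linarith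
  rw [← hN] at h1
  have hepx : ep x = k := by rw [hx, ep_Sm, hD.1]
  have hepx' : ep x' = k := by rw [hx', ep_Sm, hD.1]
  have hepΓ : ep Γ = Fintype.card G := by rw [hΓ, ep_Sm, card_univ]
  -- k^2 = N + lam v
  have hkk : (k : ℤ) ^ 2 = N + lam * Fintype.card G := by
    have h2 := congrArg ep h1
    rw [ep_mul, ep_add, ep_int_mul, hepx, hepx', hepΓ] at h2
    have h3 : ep ((N : MonoidAlgebra ℤ G)) = N := by
      unfold ep
      simp_rw [coeff_int]
      rw [Finset.sum_ite_eq' univ (1 : G) (fun _ => N), if_pos (mem_univ _)]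
    rw [h3] at h2
    linarith
  -- the lift
  obtain ⟨r, s, hs⟩ := hL G p hp hpG e x
  have htx : tau G p x = Sm D (fun d => d ^ p) := by
    rw [hx]
    unfold tau
    rw [map_Sm]
    rfl
  have hept : ep (tau G p x) = k := by rw [htx, ep_Sm, hD.1]
  have hpcast : (p : MonoidAlgebra ℤ G) ^ e = (((p : ℤ) ^ e : ℤ) : MonoidAlgebra ℤ G) := by
    push_cast
    rfl
  have hts : tau G p x = x * r + (((p : ℤ) ^ e : ℤ) : MonoidAlgebra ℤ G) * s := by
    rw [← hpcast, ← hs]
    ring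
  have hepr : (p : ℤ) ^ e ∣ ep r - 1 := by
    have h2 := congrArg ep hts
    rw [hept, ep_add, ep_mul, ep_int_mul, hepx] at h2
    have h3 : (p : ℤ) ^ e ∣ k * (ep r - 1) := ⟨-ep s, by linarith⟩
    refine IsCoprime.dvd_of_dvd_mul_left ?_ h3
    refine IsCoprime.pow_left ?_
    exact Nat.isCoprime_iff_coprime.mpr ((hp.coprime_iff_not_dvd).mpr hpk)
  have hNd : (p : ℤ) ^ e ∣ N := by
    rw [hN, ← Nat.cast_sub hlk.le]
    exact_mod_cast hpe
  obtain ⟨c1, hc1⟩ := hepr
  obtain ⟨c2, hc2⟩ := hNd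
  set F := tau G p x * x' - ((lam : ℤ) : MonoidAlgebra ℤ G) * Γ with hF
  have hΓr : Γ * r = (ep r : MonoidAlgebra ℤ G) * Γ := Gam_mul r
  have hFd : F = (((p : ℤ) ^ e : ℤ) : MonoidAlgebra ℤ G) *
      ((c2 : MonoidAlgebra ℤ G) * r + ((lam : ℤ) : MonoidAlgebra ℤ G) *
        (c1 : MonoidAlgebra ℤ G) * Γ + s * x') := by
    have e1 : (N : MonoidAlgebra ℤ G) = (((p : ℤ) ^ e : ℤ) : MonoidAlgebra ℤ G) * c2 := by
      rw [hc2]
      push_cast
      rfl
    have e2 : (ep r : MonoidAlgebra ℤ G) = 1 + (((p : ℤ) ^ e : ℤ) : MonoidAlgebra ℤ G) * c1 := by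
      have h4 : ep r = 1 + (p : ℤ) ^ e * c1 := by linarith
      rw [h4]
      push_cast
      rfl
    rw [hF, hts]
    linear_combination r * h1 + ((lam : ℤ) : MonoidAlgebra ℤ G) * hΓr +
      ((lam : ℤ) : MonoidAlgebra ℤ G) * Γ * e2 + r * e1
  -- the coefficients are nonnegative
  have hpos : ∀ g, 0 ≤ F.coeff g := by
    intro g
    have e1 : F.coeff g = (tau G p x * x').coeff g - lam := by
      rw [hF, MonoidAlgebra.coeff_sub, Finsupp.sub_apply, coeff_int_mul, hΓ, coeff_Gam, mul_one]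
    have e2 : 0 ≤ (tau G p x * x').coeff g := by
      rw [coeff_mul']
      refine Finset.sum_nonneg fun h _ => mul_nonneg ?_ ?_
      · rw [htx]
        exact coeff_Sm_nonneg _ _ _
      · rw [hx']
        exact coeff_Sm_nonneg _ _ _
    have e3 : F.coeff g = (p : ℤ) ^ e * ((c2 : MonoidAlgebra ℤ G) * r +
        ((lam : ℤ) : MonoidAlgebra ℤ G) * (c1 : MonoidAlgebra ℤ G) * Γ + s * x').coeff g := by
      conv_lhs => rw [hFd]
      rw [coeff_int_mul]
    set c := ((c2 : MonoidAlgebra ℤ G) * r +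
        ((lam : ℤ) : MonoidAlgebra ℤ G) * (c1 : MonoidAlgebra ℤ G) * Γ + s * x').coeff g with hc
    have e4 : (lam : ℤ) < (p : ℤ) ^ e := by exact_mod_cast hle
    have e5 : (0 : ℤ) < (p : ℤ) ^ e := lt_of_le_of_lt (Nat.cast_nonneg _) e4
    by_contra hneg
    push Not at hneg
    have e6 : c < 0 := by
      by_contra h7
      push Not at h7
      have := mul_nonneg e5.le h7
      linarith
    have e7 : (p : ℤ) ^ e * c ≤ (p : ℤ) ^ e * (-1) := mul_le_mul_of_nonneg_left (by omega) e5.le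
    linarith
  -- the product
  have hio : io G F = tau G p x' * x - ((lam : ℤ) : MonoidAlgebra ℤ G) * Γ := by
    have e1 : io G (tau G p x) = tau G p x' := by
      rw [htx, io_Sm, hx']
      unfold tau
      rw [map_Sm]
      unfold Sm
      refine Finset.sum_congr rfl fun d _ => ?_
      exact congrArg (fun z => single z (1 : ℤ)) (inv_pow d p).symm
    have e2 : io G x' = x := by
      rw [hx', io_Sm, hx]
      unfold Sm
      refine Finset.sum_congr rfl fun d _ => ?_
      exact congrArg (fun z => single z (1 : ℤ)) (inv_inv d)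
    rw [hF, map_sub, map_mul, map_mul, e1, e2, map_intCast, hΓ, io_Gam]
  have htt : tau G p x * tau G p x' = (N : MonoidAlgebra ℤ G) +
      ((lam : ℤ) : MonoidAlgebra ℤ G) * Γ := by
    rw [← map_mul, h1, map_add, map_mul, map_intCast, map_intCast, hΓ, tau_Gam hcop]
  have hept' : ep (tau G p x') = k := by
    rw [hx']
    unfold tau
    rw [map_Sm, ep_Sm, hD.1]
  have hΓ1 : Γ * x = ((k : ℤ) : MonoidAlgebra ℤ G) * Γ := by rw [hΓ, Gam_mul, hepx]
  have hΓ2 : Γ * x' = ((k : ℤ) : MonoidAlgebra ℤ G) * Γ := by rw [hΓ, Gam_mul, hepx']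
  have hΓ3 : Γ * tau G p x = ((k : ℤ) : MonoidAlgebra ℤ G) * Γ := by rw [hΓ, Gam_mul, hept]
  have hΓ4 : Γ * tau G p x' = ((k : ℤ) : MonoidAlgebra ℤ G) * Γ := by rw [hΓ, Gam_mul, hept']
  have hΓ5 : Γ * Γ = ((Fintype.card G : ℤ) : MonoidAlgebra ℤ G) * Γ := by
    have := Gam_mul (Sm (univ : Finset G) id)
    rw [ep_Sm, card_univ, ← hΓ] at this
    exact this
  have hkk' : ((k : ℤ) : MonoidAlgebra ℤ G) ^ 2 = (N : MonoidAlgebra ℤ G) +
      ((lam : ℤ) : MonoidAlgebra ℤ G) * ((Fintype.card G : ℤ) : MonoidAlgebra ℤ G) := by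
    rw [← Int.cast_pow, hkk, Int.cast_add, Int.cast_mul]
  have hFF : F * io G F = ((N ^ 2 : ℤ) : MonoidAlgebra ℤ G) := by
    rw [hio, hF, Int.cast_pow]
    linear_combination x * x' * htt + ((N : MonoidAlgebra ℤ G) +
      ((lam : ℤ) : MonoidAlgebra ℤ G) * Γ) * h1 - ((lam : ℤ) : MonoidAlgebra ℤ G) * x' * hΓ3 -
      ((lam : ℤ) : MonoidAlgebra ℤ G) * ((k : ℤ) : MonoidAlgebra ℤ G) * hΓ2 -
      ((lam : ℤ) : MonoidAlgebra ℤ G) * x * hΓ4 -
      ((lam : ℤ) : MonoidAlgebra ℤ G) * ((k : ℤ) : MonoidAlgebra ℤ G) * hΓ1 +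
      2 * ((lam : ℤ) : MonoidAlgebra ℤ G) ^ 2 * hΓ5 -
      2 * ((lam : ℤ) : MonoidAlgebra ℤ G) * Γ * hkk'
  obtain ⟨g₀, hg₀⟩ := triv hN0 hpos hFF
  refine ⟨g₀, ?_⟩
  have hfin : tau G p x = single g₀ 1 * x := by
    refine int_mul_cancel hN0.ne' ?_
    have e1 : tau G p x * x' = ((lam : ℤ) : MonoidAlgebra ℤ G) * Γ +
        (N : MonoidAlgebra ℤ G) * single g₀ 1 := by
      rw [← hg₀, hF]
      ring
    linear_combination x * e1 - tau G p x * h1 + ((lam : ℤ) : MonoidAlgebra ℤ G) * (hΓ1 - hΓ3)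
  rw [htx, hx, single_mul_Sm] at hfin
  exact image_eq_of_Sm hfin

end Pool.Agent.H183.MU
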