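import Pool.Agent.H183.MU.Stm
import Pool.Graph.R_seed8.TH888.B1.PrimeSieve

set_option autoImplicit false

/-!
# Project MU (helper183), part PAIRS (by helper720): pairs `(t, p)` in residue classes
-/

namespace Pool.Agent.H183.MU

open Finset

namespace PAIRS

/-- harmonic sums over residue classes -/
theorem harm (M a Y : ℕ) (hM : 1 ≤ M) :
    ∑ t ∈ (Icc 1 Y).filter (fun t => t % M = a), (1 : ℝ) / t ≤ 1 + (1 / (M : ℝ)) * (1 + Real.log Y) := by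
  classical
  have hMR : (0 : ℝ) < M := by exact_mod_cast hM
  have h1 : ∀ t ∈ (Icc 1 Y).filter (fun t => t % M = a), (1 : ℝ) / t ≤
      (if t / M = 0 then 1 else 0) + (1 / (M : ℝ)) * (((t / M : ℕ) : ℝ))⁻¹ := by
    intro t ht
    rw [mem_filter, mem_Icc] at ht
    have ht1 : (1 : ℝ) ≤ t := by exact_mod_cast ht.1.1
    by_cases h0 : t / M = 0
    · rw [if_pos h0, h0, Nat.cast_zero, inv_zero, mul_zero, add_zero]
      rw [div_le_one (by linarith)]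
      exact ht1
    · rw [if_neg h0, zero_add]
      have hj : 0 < t / M := Nat.pos_of_ne_zero h0
      have hjR : (0 : ℝ) < ((t / M : ℕ) : ℝ) := by exact_mod_cast hj
      have h2 : (M : ℝ) * ((t / M : ℕ) : ℝ) ≤ t := by
        have h3 : M * (t / M) ≤ t := Nat.mul_div_le t M
        exact_mod_cast h3
      rw [one_div, one_div, ← mul_inv]
      exact inv_anti₀ (mul_pos hMR hjR) h2
  refine (sum_le_sum h1).trans ?_
  have hinj : Set.InjOn (fun t : ℕ => t / M) ((Icc 1 Y).filter (fun t => t % M = a) : Finset ℕ) := by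
    intro t ht u hu htu
    rw [mem_coe, mem_filter] at ht hu
    have e1 := Nat.div_add_mod t M
    have e2 := Nat.div_add_mod u M
    have e3 : t / M = u / M := htu
    rw [← e1, ← e2, e3, ht.2, hu.2]
  have h3 : ∑ t ∈ (Icc 1 Y).filter (fun t => t % M = a),
      ((if t / M = 0 then (1 : ℝ) else 0) + (1 / (M : ℝ)) * (((t / M : ℕ) : ℝ))⁻¹) =
      ∑ j ∈ ((Icc 1 Y).filter (fun t => t % M = a)).image (fun t : ℕ => t / M),
        ((if j = 0 then (1 : ℝ) else 0) + (1 / (M : ℝ)) * ((j : ℝ))⁻¹) :=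
    (sum_image (f := fun j : ℕ => ((if j = 0 then (1 : ℝ) else 0) + (1 / (M : ℝ)) * ((j : ℝ))⁻¹))
      hinj).symm
  rw [h3]
  have hsub : ((Icc 1 Y).filter (fun t => t % M = a)).image (fun t : ℕ => t / M) ⊆ range (Y + 1) := by
    intro j hj
    rw [mem_image] at hj
    obtain ⟨t, ht, rfl⟩ := hj
    rw [mem_filter, mem_Icc] at ht
    rw [mem_range]
    have := Nat.div_le_self t M
    omega
  refine (sum_le_sum_of_subset_of_nonneg hsub ?_).trans ?_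
  · intro j _ _
    refine add_nonneg ?_ (mul_nonneg (by positivity) (by positivity))
    split_ifs
    · exact zero_le_one
    · exact le_refl 0
  · rw [sum_add_distrib, ← mul_sum, sum_range_succ', sum_range_succ']
    have h4 : ∑ k ∈ range Y, (if k + 1 = 0 then (1 : ℝ) else 0) = 0 :=
      sum_eq_zero fun k _ => if_neg (Nat.succ_ne_zero k)
    have h5 : (∑ k ∈ range Y, (((k + 1 : ℕ) : ℝ))⁻¹) ≤ 1 + Real.log Y := by
      have h6 := harmonic_le_one_add_log Y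
      rw [harmonic] at h6
      push_cast at h6 ⊢
      exact h6
    rw [h4, zero_add, if_pos rfl, Nat.cast_zero, inv_zero, add_zero]
    have h7 := mul_le_mul_of_nonneg_left h5 (by positivity : (0 : ℝ) ≤ 1 / (M : ℝ))
    linarith

/-- the count for one pair of classes -/
theorem one_class {N₁ : ℕ}
    (hN₁ : ∀ (M : ℕ) (b : Finset ℕ), 1 ≤ M → ∀ N : ℕ, N₁ * M ≤ N → M ^ 2 ≤ N →
      4 ≤ N → ((((range (N + 1)).filter (fun p : ℕ => p.Prime ∧ p % M ∈ b)).card : ℕ) : ℝ) ≤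
        12 * ((b.card : ℝ) / Nat.totient M) * (N / Real.log N))
    {M : ℕ} (hM : 1 ≤ M) {X Y : ℕ} (hYX : Y * Y ≤ X) (h1 : N₁ * M ≤ Y) (h2 : M ^ 2 ≤ Y) (h3 : 4 ≤ Y)
    (hlog : (M : ℝ) + 1 ≤ Real.log Y) (a b : ℕ) :
    ∑ t ∈ (Icc 1 Y).filter (fun t => t % M = a),
      ((((range (X / t + 1)).filter (fun p : ℕ => p.Prime ∧ p % M ∈ ({b} : Finset ℕ))).card : ℕ) : ℝ) ≤
      36 * (X / ((M : ℝ) * (Nat.totient M : ℝ))) := by
  have hMR : (1 : ℝ) ≤ M := by exact_mod_cast hM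
  have hφ : (0 : ℝ) < (Nat.totient M : ℝ) := by exact_mod_cast Nat.totient_pos.2 hM
  have hYR : (4 : ℝ) ≤ Y := by exact_mod_cast h3
  have hL : 0 < Real.log Y := by linarith
  have hX0 : (0 : ℝ) ≤ X := Nat.cast_nonneg X
  have hterm : ∀ t ∈ (Icc 1 Y).filter (fun t => t % M = a),
      ((((range (X / t + 1)).filter (fun p : ℕ => p.Prime ∧ p % M ∈ ({b} : Finset ℕ))).card : ℕ) : ℝ) ≤
        (12 / (Nat.totient M : ℝ) * (X / Real.log Y)) * (1 / t) := by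
    intro t ht
    rw [mem_filter, mem_Icc] at ht
    have ht1 : (1 : ℝ) ≤ t := by exact_mod_cast ht.1.1
    have hN : Y ≤ X / t := by
      rw [Nat.le_div_iff_mul_le ht.1.1]
      exact (Nat.mul_le_mul_left Y ht.1.2).trans hYX
    have hNR : (Y : ℝ) ≤ ((X / t : ℕ) : ℝ) := by exact_mod_cast hN
    have hc := hN₁ M {b} hM (X / t) (h1.trans hN) (h2.trans hN) (h3.trans hN)
    rw [card_singleton, Nat.cast_one] at hc
    have hlN : Real.log Y ≤ Real.log ((X / t : ℕ) : ℝ) := Real.log_le_log (by linarith) hNR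
    have hNX : ((X / t : ℕ) : ℝ) ≤ (X : ℝ) / t := Nat.cast_div_le
    have h5 : ((X / t : ℕ) : ℝ) / Real.log ((X / t : ℕ) : ℝ) ≤ ((X : ℝ) / t) / Real.log Y :=
      div_le_div₀ (div_nonneg hX0 (by linarith)) hNX hL hlN
    refine hc.trans ?_
    calc 12 * (1 / (Nat.totient M : ℝ)) * (((X / t : ℕ) : ℝ) / Real.log ((X / t : ℕ) : ℝ))
        ≤ 12 * (1 / (Nat.totient M : ℝ)) * (((X : ℝ) / t) / Real.log Y) :=
          mul_le_mul_of_nonneg_left h5 (by positivity)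
      _ = (12 / (Nat.totient M : ℝ) * (X / Real.log Y)) * (1 / t) := by ring
  refine (sum_le_sum hterm).trans ?_
  rw [← mul_sum]
  have hh := harm M a Y hM
  have h6 : 1 + (1 / (M : ℝ)) * (1 + Real.log Y) ≤ 3 / (M : ℝ) * Real.log Y := by
    have h7 : (1 : ℝ) = (1 / (M : ℝ)) * M := by field_simp
    have h8 : (1 / (M : ℝ)) * M + (1 / (M : ℝ)) * (1 + Real.log Y) ≤ 3 / (M : ℝ) * Real.log Y := by
      have h9 : (1 / (M : ℝ)) * (M + (1 + Real.log Y)) ≤ (1 / (M : ℝ)) * (3 * Real.log Y) :=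
        mul_le_mul_of_nonneg_left (by linarith) (by positivity)
      calc (1 / (M : ℝ)) * M + (1 / (M : ℝ)) * (1 + Real.log Y)
          = (1 / (M : ℝ)) * (M + (1 + Real.log Y)) := by ring
        _ ≤ (1 / (M : ℝ)) * (3 * Real.log Y) := h9
        _ = 3 / (M : ℝ) * Real.log Y := by ring
    linarith
  calc (12 / (Nat.totient M : ℝ) * (X / Real.log Y)) *
        ∑ t ∈ (Icc 1 Y).filter (fun t => t % M = a), (1 : ℝ) / t
      ≤ (12 / (Nat.totient M : ℝ) * (X / Real.log Y)) * (3 / (M : ℝ) * Real.log Y) :=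
        mul_le_mul_of_nonneg_left (hh.trans h6) (by positivity)
    _ = 36 * (X / ((M : ℝ) * (Nat.totient M : ℝ))) := by
        field_simp
        ring

end PAIRS

open PAIRS

theorem t_PAIRS : S_PAIRS := by
  classical
  obtain ⟨N₁, hN₁⟩ := Pool.Agent.TH888.B1.primes_in_classes
  intro M hM
  obtain ⟨Y₀, hY₀⟩ : ∃ Y₀ : ℕ, Y₀ = N₁ * M + M ^ 2 + 4 + ⌈Real.exp ((M : ℝ) + 1)⌉₊ := ⟨_, rfl⟩
  refine ⟨Y₀ * Y₀, fun X hX S => ?_⟩
  have hY : Y₀ ≤ Nat.sqrt X := Nat.le_sqrt.2 hX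
  obtain ⟨Y, hYdef⟩ : ∃ Y : ℕ, Y = Nat.sqrt X := ⟨_, rfl⟩
  rw [← hYdef] at hY
  have hYX : Y * Y ≤ X := by rw [hYdef]; exact Nat.sqrt_le X
  have h1 : N₁ * M ≤ Y := by omega
  have h2 : M ^ 2 ≤ Y := by omega
  have h3 : 4 ≤ Y := by omega
  have hlog : (M : ℝ) + 1 ≤ Real.log Y := by
    have h5 : ⌈Real.exp ((M : ℝ) + 1)⌉₊ ≤ Y := by omega
    have h6 : Real.exp ((M : ℝ) + 1) ≤ Y := (Nat.le_ceil _).trans (by exact_mod_cast h5)
    rw [Real.le_log_iff_exp_le (by positivity)]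
    exact h6
  obtain ⟨U, hU⟩ : ∃ U : ℕ × ℕ → Finset (ℕ × ℕ), U = fun ab =>
      ((Icc 1 Y).filter (fun t => t % M = ab.1)).biUnion (fun t =>
        ((range (X / t + 1)).filter (fun p : ℕ => p.Prime ∧ p % M ∈ ({ab.2} : Finset ℕ))).image
          (fun p => (t, p))) := ⟨_, rfl⟩
  have hsub : {x : ℕ × ℕ | 1 ≤ x.1 ∧ x.2.Prime ∧ x.1 ≤ x.2 ∧ x.1 * x.2 ≤ X ∧
      (x.1 % M, x.2 % M) ∈ S} ⊆ ((S.biUnion U : Finset (ℕ × ℕ)) : Set (ℕ × ℕ)) := by
    rintro ⟨t, p⟩ ⟨ht1, hp, htp, htpX, hS⟩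
    simp only at ht1 hp htp htpX hS
    rw [mem_coe, mem_biUnion]
    refine ⟨(t % M, p % M), hS, ?_⟩
    rw [hU]
    simp only
    rw [mem_biUnion]
    refine ⟨t, ?_, ?_⟩
    · rw [mem_filter, mem_Icc]
      refine ⟨⟨ht1, ?_⟩, rfl⟩
      rw [hYdef, Nat.le_sqrt]
      exact (Nat.mul_le_mul_left t htp).trans htpX
    · rw [mem_image]
      refine ⟨p, ?_, rfl⟩
      rw [mem_filter, mem_range]
      refine ⟨?_, hp, mem_singleton_self _⟩
      have h7 : p ≤ X / t := by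
        rw [Nat.le_div_iff_mul_le ht1, Nat.mul_comm]
        exact htpX
      omega
  have hcard : {x : ℕ × ℕ | 1 ≤ x.1 ∧ x.2.Prime ∧ x.1 ≤ x.2 ∧ x.1 * x.2 ≤ X ∧
      (x.1 % M, x.2 % M) ∈ S}.ncard ≤ ∑ ab ∈ S, ∑ t ∈ (Icc 1 Y).filter (fun t => t % M = ab.1),
      ((range (X / t + 1)).filter (fun p : ℕ => p.Prime ∧ p % M ∈ ({ab.2} : Finset ℕ))).card := by
    refine (Set.ncard_le_ncard hsub (Finset.finite_toSet _)).trans ?_
    rw [Set.ncard_coe_finset]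
    refine card_biUnion_le.trans (sum_le_sum fun ab _ => ?_)
    rw [hU]
    refine card_biUnion_le.trans (sum_le_sum fun t _ => card_image_le)
  have hcardR : (({x : ℕ × ℕ | 1 ≤ x.1 ∧ x.2.Prime ∧ x.1 ≤ x.2 ∧ x.1 * x.2 ≤ X ∧
      (x.1 % M, x.2 % M) ∈ S}.ncard : ℕ) : ℝ) ≤
      ∑ ab ∈ S, ∑ t ∈ (Icc 1 Y).filter (fun t => t % M = ab.1),
      ((((range (X / t + 1)).filter (fun p : ℕ => p.Prime ∧ p % M ∈ ({ab.2} : Finset ℕ))).card : ℕ) : ℝ) := by
    exact_mod_cast hcard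
  refine hcardR.trans ?_
  refine (sum_le_sum fun ab _ => one_class hN₁ hM hYX h1 h2 h3 hlog ab.1 ab.2).trans ?_
  rw [sum_const, nsmul_eq_mul]
  have h8 : (0 : ℝ) ≤ (S.card : ℝ) * ((X : ℝ) / ((M : ℝ) * (Nat.totient M : ℝ))) := by positivity
  calc (S.card : ℝ) * (36 * ((X : ℝ) / ((M : ℝ) * (Nat.totient M : ℝ))))
      = 36 * ((S.card : ℝ) * ((X : ℝ) / ((M : ℝ) * (Nat.totient M : ℝ)))) := by ring
    _ ≤ 200 * ((S.card : ℝ) * ((X : ℝ) / ((M : ℝ) * (Nat.totient M : ℝ)))) := by linarith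
    _ = 200 * ((S.card : ℝ) / ((M : ℝ) * (Nat.totient M : ℝ))) * X := by ring

end Pool.Agent.H183.MU
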