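import Mathlib

/-!
# Difference sets with Singer parameters of even dimension in abelian groups: statements

Project MU (helper183), page MP_79499b_co. For even `m ≥ 4` and `n = t p`, `p` a large prime, the
second multiplier theorem makes `p` a multiplier; if `p` has a power `≡ -1` modulo `w₁ w₂`, where
`w₁ ∣ n^(m/2) + 1` and `w₂ ∣ n^(m/2) - 1` are odd primes, `n ≢ 1` modulo `w₂`, we get a
contradiction. A sieve shows that almost all such `n` have such primes `w₁`, `w₂`.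

Models: `Pool.Graph.R_seed8.TH66.SG.*` (Mann, Quot, Key, Nilp) and
`Pool.Graph.R_seed8.TH888.B1.PrimeSieve`.
-/

set_option autoImplicit false

namespace Pool.Agent.H183.MU

open Finset

/-- `D` is a difference set with parameters `k`, `lam` in the abelian group `G`. -/
def IsDS {G : Type} [CommGroup G] [Fintype G] [DecidableEq G] (D : Finset G) (k lam : ℕ) : Prop :=
  D.card = k ∧
    ∀ g : G, g ≠ 1 → ((D ×ˢ D).filter (fun p : G × G => p.1 * p.2⁻¹ = g)).card = lam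

/-- Some finite abelian group contains a difference set with the Singer parameters of `(n, m)`. -/
def HasAb (n m : ℕ) : Prop :=
  ∃ (G : Type) (_ : CommGroup G) (_ : Fintype G) (_ : DecidableEq G) (D : Finset G),
    Fintype.card G * (n - 1) = n ^ m - 1 ∧ D.card * (n - 1) = n ^ (m - 1) - 1 ∧
    ∀ g : G, g ≠ 1 →
      ((D ×ˢ D).filter (fun p : G × G => p.1 * p.2⁻¹ = g)).card * (n - 1) = n ^ (m - 2) - 1

/-- The endomorphism of the integral group ring which maps `g` to `g ^ p`. -/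
noncomputable def tau (G : Type) [CommGroup G] (p : ℕ) :
    MonoidAlgebra ℤ G →+* MonoidAlgebra ℤ G :=
  MonoidAlgebra.mapDomainRingHom ℤ (powMonoidHom p : G →* G)

/-! ## A. Algebra -/

/-- **S_LIFT.** `τ x` is a multiple of `x` modulo `p ^ e`, if `p` does not divide the order of `G`.
Proof by induction on `e`; `e = 0` is trivial. Let `q = p ^ f` with `f ≥ 1` and `q ≡ 1` modulo
`|G|` (`f = φ(|G|)`), so `τ^f = id`. Facts: (a) `p ∣ x ^ p - τ x` for all `x` (Frobenius in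
the group ring over `ZMod p`: `(∑ a_g g)^p = ∑ a_g g^p` modulo `p`; `add_pow_char`, or induction on
`x` with `MonoidAlgebra.induction_on`, `Commute.add_pow_prime_eq`/`exists_add_pow_prime_eq`),
so `p ∣ x ^ q - x` (iterate `f` times: `τ^f = id` as `g ^ q = g`). (b)
`dvd_sub_pow_of_dvd_sub`: `p ∣ a - b` implies `p ^ (e+1) ∣ a ^ (p ^ e) - b ^ (p ^ e)`.
Step `e → e + 1`: let `E = x ^ ((q-1) p^e)`. By (a), `(x^(q-1))^2 = x^(q-2) x^q ≡ x^(q-1)` modulo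
`p`, so `E^2 ≡ E` modulo `p^(e+1)` by (b), hence `E ^ p ≡ E` modulo `p^(e+1)`. Also `τ x ≡ x^p`
modulo `p`, so `τ E = ((τ x)^(p^e))^(q-1) ≡ ((x^p)^(p^e))^(q-1) = E ^ p ≡ E` modulo `p^(e+1)`.
`p ∣ (1 - E) x` since `x E ≡ x` modulo `p` (`x^q ≡ x` repeatedly: `x · x^((q-1) N) ≡ x`); write
`(1 - E) x = p x₁`, and by the induction hypothesis `τ x₁ = x₁ r + p^e s`. Then, modulo `p^(e+1)`,
`τ x = τ(E x) + τ((1-E) x) = τ E τ x + p τ x₁ ≡ E τ x + p x₁ r = E τ x + (1 - E) x r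
= x (x^((q-1)p^e - 1) τ x + (1-E) r)`. -/
def S_LIFT : Prop := ∀ (G : Type) [CommGroup G] [Fintype G] (p : ℕ), p.Prime →
  ¬ p ∣ Fintype.card G → ∀ (e : ℕ) (x : MonoidAlgebra ℤ G),
    ∃ r : MonoidAlgebra ℤ G, (p : MonoidAlgebra ℤ G) ^ e ∣ tau G p x - x * r

/-- **S_MULT.** The second multiplier theorem for a prime power `p ^ e > lam` dividing `k - lam`.
Proof. In `ℤ[G]` write `x = ∑_{d ∈ D} d`, `x' = ∑ d⁻¹` (apply the automorphism `ι : g ↦ g⁻¹`),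
`Γ = ∑_g g`, `N = k - lam`, `v = |G|`. Then `x x' = N + lam Γ`, `k^2 = N + lam v`, `Γ y = ε(y) Γ`
(`ε` = augmentation), `τ Γ = Γ` (`g ↦ g^p` is a bijection). By S_LIFT `τ x = x r + p^e s`, so
`τ x · x' = (N + lam Γ) r + p^e (..) = lam ε(r) Γ + p^e (..)` (as `p^e ∣ N`); and `k = ε(τ x) =
k ε(r) + p^e (..)`, so `p^e ∣ ε(r) - 1` as `p ∤ k`: `F := τ x · x' - lam Γ = p^e F₁`. All
coefficients of `F` are `≥ -lam > -p^e` (those of `τ x · x'` are `≥ 0`), so `≥ 0`. Further `F ι(F) =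
(N + lam Γ)^2 - 2 lam k^2 Γ + lam^2 v Γ = N^2`. If `F` had two different group elements `g ≠ h`
with nonzero coefficients then the coefficient of `g h⁻¹` in `F ι(F)` would be `> 0`. So `F = c g`,
`c ^ 2 = N^2`, `c = N` (if `N = 0`: then `F = 0`, `lam = k`; use `F` times anything, treat separately:
`N = 0` means `k = lam`, all `g ≠ 1` have `k` representations, `D` is a coset of ... simply `D = G`
or `G = 1` or `D = ∅` (excluded by `p ∤ k`); you may assume `lam < k`). Multiply `τ x · x' = lam Γ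
+ N g` by `x`: `N τ x = N g x`, `τ x = g x`, which gives the equality of the sets. -/
def S_MULT : Prop := ∀ (G : Type) [CommGroup G] [Fintype G] [DecidableEq G] (D : Finset G)
  (k lam p e : ℕ), IsDS D k lam → p.Prime → ¬ p ∣ Fintype.card G → ¬ p ∣ k → lam < k →
    p ^ e ∣ k - lam → lam < p ^ e →
      ∃ g : G, D.image (fun x => x ^ p) = D.image (fun x => g * x)

/-- **S_FIX.** A translate fixed by the multiplier. Proof. For a finite set `A` let `π A` be the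
product of its elements. `π (h A) = h^k π A` for `|A| = k`. As `k` is prime to `|G|`, there is `h`
with `h^k = (π D)⁻¹`; `D' = h D` has `π D' = 1` and is a difference set. Its image under `x ↦ x^p`
is `h^p g D = g' D'` with `g' = h^(p-1) g`, and `π` of it is `(π D')^p = 1` (the map is
injective), so `1 = g'^k π D' = g'^k` and `g' = 1`. -/
def S_FIX : Prop := ∀ (G : Type) [CommGroup G] [Fintype G] [DecidableEq G] (D : Finset G)
  (k lam p : ℕ), IsDS D k lam → 1 ≤ p → Nat.Coprime k (Fintype.card G) →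
    Nat.Coprime p (Fintype.card G) →
    (∃ g : G, D.image (fun x => x ^ p) = D.image (fun x => g * x)) →
      ∃ D' : Finset G, IsDS D' k lam ∧ D'.image (fun x => x ^ p) = D'

/-- **S_EVEN.** Mann's test for a symmetric image. This is `Pool.Agent.TH66.SG.mann` (file
`Pool/Graph/R_seed8/TH66/SG/Quot.lean`, with the factor `v = 1` there), with the hypothesis that
all prime factors of `u` are semiprimitive replaced by the symmetry of the numbers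
`#{x ∈ D | φ x = h}`. Only `dvd_of_cor` (file `Mann.lean`) has to be changed: for a prime `p` with
`p ∤ w = |H|`, a symmetric `f : H → ℤ` (`f h⁻¹ = f h`) with `p ∣ cor f g` for all `g` is divisible
by `p`: in `(ZMod p)[H]`, `F F' = 0` and `F' = F`, so `F ^ 2 = 0`; with `q = p ^ φ(w) ≡ 1` modulo
`w` we have `F ^ q = F` (as `h ^ q = h`), so `F = 0`. In `descent` the symmetry goes over to `y`. -/
def S_EVEN : Prop := ∀ (G H : Type) [CommGroup G] [Fintype G] [DecidableEq G] [CommGroup H]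
  [Fintype H] [DecidableEq H] (φ : G →* H), Function.Surjective φ → ∀ (D : Finset G)
  (k lam u w : ℕ), IsDS D k lam → k = lam + u ^ 2 → Fintype.card H = w → 4 < w → 0 < u →
    Nat.Coprime u w →
    (∀ h : H, (D.filter (fun x => φ x = h⁻¹)).card = (D.filter (fun x => φ x = h)).card) →
      (w : ℤ) ∣ k + u ∨ (w : ℤ) ∣ k - u

/-- **S_KEY.** The exclusion. Proof: as `Pool.Agent.TH66.SG.key` (file
`Pool/Graph/R_seed8/TH66/SG/Key.lean`), with `z = n ^ (m/2)`, `u = n ^ (m/2 - 1)`, `v = 1` there and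
`S_EVEN` in place of `mann`. Let `lam (n-1) = n^(m-2) - 1`, so `k - lam = n^(m-2) = u^2` and
`lam < 2 n^(m-3) ≤ p^(m-2)` (`lam (n-1) < n^(m-2) = n n^(m-3) ≤ 2 (n-1) n^(m-3)`), `p^(m-2) ∣ k - lam`;
`|G| ≡ 1` and `k ≡ 1` modulo `n` (geometric sums), so modulo `p`; `|G| = n k + 1` is prime to `k`. By
S_MULT (`e = m - 2`) and S_FIX we may assume `D.image (· ^ p) = D`, so `D.image (· ^ (p ^ j)) = D`,
a bijection of `D`. With `H = Multiplicative (ZMod w₁) × Multiplicative (ZMod w₂)` (`nilp_quot`,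
`prod_surj` in `Nilp.lean`; abelian groups are nilpotent), `y ^ (p^j) = y⁻¹` for `y ∈ H` since
`w₁ w₂ ∣ p^j + 1`; this gives the symmetry in S_EVEN. The end is as in `key`. -/
def S_KEY : Prop := ∀ (n m p j w₁ w₂ : ℕ), 2 ≤ n → 4 ≤ m → Even m → p.Prime → p ∣ n →
  2 * n ^ (m - 3) ≤ p ^ (m - 2) → w₁.Prime → w₂.Prime → w₁ ≠ 2 → w₂ ≠ 2 → w₁ ≠ w₂ →
  (n : ZMod w₁) ^ (m / 2) = -1 → (n : ZMod w₂) ^ (m / 2) = 1 → (n : ZMod w₂) ≠ 1 →
  w₁ * w₂ ∣ p ^ j + 1 → ¬ HasAb n m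

/-! ## B. The sieve -/

/-- **S_CNT.** Number of pairs of classes which are bad for all `w ∈ F`. Proof. By the Chinese
remainder theorem (injectivity of `(a, b) ↦ (a mod w, b mod w)_w` is enough; see `bad_card` in
`Pool/Graph/R_seed8/TH888/B1/PrimeSieve.lean`) the number is at most the product over `w ∈ F` of the
number of pairs `(a, b)`, `b ≠ 0`, with `¬ P w a b`, which is at most `w (w-1) - |B| ≤ w (w-1) -
(w-1)/2 = w (w-1) (1 - 1/(2w)) ≤ w (w-1) exp(-1/(2w))` (for each `b ∈ B` choose one `a`). And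
`φ(∏ w) = ∏ (w-1)` (`totient_prod_primes` there). -/
def S_CNT : Prop := ∀ F : Finset ℕ, (∀ w ∈ F, w.Prime) → ∀ P : ∀ w : ℕ, ZMod w → ZMod w → Prop,
  (∀ w ∈ F, ∃ B : Finset (ZMod w), (0 : ZMod w) ∉ B ∧ w ≤ 2 * B.card + 1 ∧
    ∀ b ∈ B, ∃ a, P w a b) → ∀ M : ℕ, M = ∏ w ∈ F, w →
  (({x : ℕ × ℕ | x.1 < M ∧ x.2 < M ∧ ∀ w ∈ F, (x.2 : ZMod w) ≠ 0 ∧ ¬ P w x.1 x.2}.ncard : ℕ) : ℝ) ≤
    Real.exp (-(1 / 2) * ∑ w ∈ F, (1 : ℝ) / w) * ((M : ℝ) * (Nat.totient M : ℝ))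

/-- **S_PAIRS.** Pairs `(t, p)`, `p ≥ t` prime, `t p ≤ X`, with `(t mod M, p mod M) ∈ S`. Proof. It is
enough to treat `S = {(a, b)}` (sum over `S`). Here `t ≤ √X`, `p ≤ N := X / t`, `N ≥ √X - 1`. By
`Pool.Agent.TH888.B1.primes_in_classes` (file `Pool/Graph/R_seed8/TH888/B1/PrimeSieve.lean`;
`b = {b}`, valid for large `X` as `M` is fixed) the number of `p` is at most
`12 / φ(M) · N / log N ≤ 12 / φ(M) · (X / t) · (4 / log X)`. The sum of `1 / t` over `t ≤ √X`, `t ≡ a`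
modulo `M`, is at most `1 + (1/M) (1 + log X) ≤ (3 / M) log X` for large `X` (the first term is at
most `1`, the others are at most `1 / (M j)`). Total `≤ 144 X / (M φ(M))`. -/
def S_PAIRS : Prop := ∀ M : ℕ, 1 ≤ M → ∃ X₀ : ℕ, ∀ X : ℕ, X₀ ≤ X → ∀ S : Finset (ℕ × ℕ),
  (({x : ℕ × ℕ | 1 ≤ x.1 ∧ x.2.Prime ∧ x.1 ≤ x.2 ∧ x.1 * x.2 ≤ X ∧
    (x.1 % M, x.2 % M) ∈ S}.ncard : ℕ) : ℝ) ≤
    200 * ((S.card : ℝ) / ((M : ℝ) * (Nat.totient M : ℝ))) * X

/-- **S_DENS.** Proof. The sums over finite subsets of `R` of `1 / w` are unbounded: choose a finite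
`F ⊆ R` with `exp(-(1/2) ∑ 1/w) ≤ ε / 400` (see `prime_avoid` in
`Pool/Graph/R_seed8/TH888/B1/PrimeSieve.lean`), `M = ∏ w`, and `S` the finite set of S_CNT. A pair of
the set is in the set of S_PAIRS, or some `w ∈ F` divides the prime `p`, so `p = w ≤ M`, `t ≤ M`: at
most `M ^ 2 ≤ (ε / 2) X` pairs for large `X`. -/
def S_DENS : Prop := ∀ R : Set ℕ, (∀ w ∈ R, w.Prime) →
  ¬ Summable (fun n : ℕ => R.indicator (fun n : ℕ => (1 : ℝ) / n) n) →
  ∀ P : ∀ w : ℕ, ZMod w → ZMod w → Prop,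
  (∀ w ∈ R, ∃ B : Finset (ZMod w), (0 : ZMod w) ∉ B ∧ w ≤ 2 * B.card + 1 ∧
    ∀ b ∈ B, ∃ a, P w a b) → ∀ ε : ℝ, 0 < ε → ∃ X₀ : ℕ, ∀ X : ℕ, X₀ ≤ X →
  (({x : ℕ × ℕ | 1 ≤ x.1 ∧ x.2.Prime ∧ x.1 ≤ x.2 ∧ x.1 * x.2 ≤ X ∧
    ∀ w ∈ R, ¬ P w x.1 x.2}.ncard : ℕ) : ℝ) ≤ ε * X

/-- **S_DIR.** Divergence of the sum of the reciprocals of the primes in a class. Proof. It is a
reduced residue class modulo `2^(s+1) L` (Chinese remainder theorem), so Dirichlet's theorem with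
divergence. In the library e.g. `Pool.Agent.TH888.B1.support_diverges` (or `frob_diverges`, for the
cyclotomic field, `Pool/Graph/R_seed8/TH888/B1/Roots.lean`), or a prime number theorem for
arithmetic progressions (`Pool.Agent.H441R3.BV.main_nat`) with partial summation, or some direct
lemma (please search the library), or Mathlib
(`ArithmeticFunction.vonMangoldt.not_summable_residueClass_prime_div` and the lemmas before it: the
logarithmic derivative bound gives `∑ log p / p^x ≥ c/(x-1)` over the class for `x → 1+`; if `∑ 1/p`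
over the class converged then `(x-1) ∑ log p / p^x → 0`, since `(x-1) log p / p^(x-1) ≤ 1` and is
`→ 0` for each `p`: dominated convergence, a contradiction). -/
def S_DIR : Prop := ∀ s L : ℕ, 1 ≤ s → Odd L →
  ¬ Summable (fun n : ℕ => ({w : ℕ | w.Prime ∧ w % 2 ^ (s + 1) = 1 + 2 ^ s ∧ L ∣ w - 1}).indicator
    (fun n : ℕ => (1 : ℝ) / n) n)

/-- **S_CLS.** Proof. `B` = the nonzero nonsquares (`(w-1)/2` of them), `a = x₀ / b`; Euler's
criterion. -/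
def S_CLS : Prop := ∀ w : ℕ, w.Prime → w ≠ 2 → ∀ x₀ : ZMod w, ∃ B : Finset (ZMod w),
  (0 : ZMod w) ∉ B ∧ w ≤ 2 * B.card + 1 ∧ ∀ b ∈ B, ∃ a, a * b = x₀ ∧ b ^ ((w - 1) / 2) = -1

/-- **S_ROOT.** Proof. `m/2 = 2^b m'` with `m'` odd, `s = b + 1`. `x₁ = g^((w-1)/2^s)`, `g` a primitive
root, has `x₁^(2^b) = -1`, so `x₁^(m/2) = (-1)^m' = -1`. If `b ≥ 1` let `L = 1`, `x₂ = -1`. If `b = 0`
then `m' = m/2 ≥ 3`; let `L = m'`, `x₂ = g^((w-1)/m')`, of order `m'`. (Primes `w ≡ 1 + 2^s` modulo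
`2^(s+1)` are odd.) -/
def S_ROOT : Prop := ∀ m : ℕ, 4 ≤ m → Even m → ∃ s L : ℕ, 1 ≤ s ∧ Odd L ∧
  ∀ w : ℕ, w.Prime → w % 2 ^ (s + 1) = 1 + 2 ^ s → L ∣ w - 1 →
    (∃ x₁ : ZMod w, x₁ ^ (m / 2) = -1) ∧ ∃ x₂ : ZMod w, x₂ ^ (m / 2) = 1 ∧ x₂ ≠ 1

/-- **S_ALM.** For even `m` almost all `n` with a large prime factor are excluded. Proof (from S_KEY,
S_DENS, S_DIR, S_CLS, S_ROOT): `n = t p` with `t ≤ p`, as `p^2 ≥ n` follows from
`2 n^(m-3) ≤ p^(m-2)` (`(p^2)^(m-2) ≥ 4 n^(2m-6) ≥ n^(m-2)`). Apply S_DENS twice to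
`R = {w prime, w % 2^(s+1) = 1 + 2^s, L ∣ w - 1}`, with
`P w a b := (a b)^(m/2) = -1 ∧ b^((w-1)/2) = -1` and
`P w a b := (a b)^(m/2) = 1 ∧ a b ≠ 1 ∧ b^((w-1)/2) = -1`. Outside the two exceptional sets there are
`w₁`, `w₂ ∈ R`, different (`-1 ≠ 1`), and `(w_i - 1)/2 = 2^(s-1) o_i` with `o_i` odd, so
`j = 2^(s-1) o₁ o₂` has `p^j ≡ -1` modulo `w₁`, `w₂`. -/
def S_ALM : Prop := ∀ m : ℕ, 4 ≤ m → Even m → ∀ ε : ℝ, 0 < ε → ∃ X₀ : ℕ, ∀ X : ℕ, X₀ ≤ X →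
  (({n : ℕ | 2 ≤ n ∧ n ≤ X ∧ (∃ p : ℕ, p.Prime ∧ p ∣ n ∧ 2 * n ^ (m - 3) ≤ p ^ (m - 2)) ∧
    HasAb n m}.ncard : ℕ) : ℝ) ≤ ε * X

/-! ## C. Integers with a large prime factor -/

/-- **S_MERT.** Mertens' second theorem in the form of a lower bound: for `y = X^θ` up to a constant
factor. Proof. `∑_{p ≤ x} 1/p = log log x + B + o(1)` (library; e.g. search for Mertens), and
`log (log X / log y) → log (1/θ)` for `y = C X^θ`. -/
def S_MERT : Prop := ∀ θ : ℝ, 0 < θ → θ < 1 → ∀ C : ℝ, 0 < C → ∀ ε : ℝ, 0 < ε → ∃ X₀ : ℕ,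
  ∀ X : ℕ, X₀ ≤ X →
    Real.log (1 / θ) - ε ≤
      ∑ p ∈ (Icc 1 X).filter (fun p : ℕ => p.Prime ∧ C * (X : ℝ) ^ θ ≤ p), (1 : ℝ) / p

/-- **S_MER.** Proof. Let `θ = (K-3)/(K-2) ≥ 1/2`, `C = 2`. A prime `p ≥ 2 X^θ` has `p^(K-2) ≥
2 X^(K-3) ≥ 2 n^(K-3)` for `n ≤ X`. The multiples `n = p t ≤ X` of these primes are all different
for different `p` (`p > √X`; two such primes dividing `n` give `p p' ≤ n ≤ X`), and are `≥ 2`. So the
number is at least `∑_p ⌊X/p⌋ ≥ X ∑_p 1/p - π(X)`, and `π(X) ≤ (ε/2) X` for large `X` (e.g.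
`Chebyshev`, or the density of the primes is `0`, library or Mathlib). S_MERT with `ε / 2`. -/
def S_MER : Prop := ∀ K : ℕ, 4 ≤ K → ∀ ε : ℝ, 0 < ε → ∃ X₀ : ℕ, ∀ X : ℕ, X₀ ≤ X →
  (Real.log (((K : ℝ) - 2) / ((K : ℝ) - 3)) - ε) * X ≤
    (({n : ℕ | 2 ≤ n ∧ n ≤ X ∧ ∃ p : ℕ, p.Prime ∧ p ∣ n ∧
      2 * n ^ (K - 3) ≤ p ^ (K - 2)}.ncard : ℕ) : ℝ)

/-- **S_FIN.** The final theorem. Proof. Odd `m`: `Pool.Agent.Y346.SG.singer_count_le` (see
`Pool/Graph/R_seed8/Results/MP_79499b_co/OrderCountOdd.lean`) with `ε = 1/2`, a commutative group is a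
group. Even `m ≤ K`: if `p ∣ n`, `2 n^(K-3) ≤ p^(K-2)` then `2 n^(m-3) ≤ p^(m-2)`, because
`p^(K-m) ≤ n^(K-m)`; S_ALM for each even `m ≤ K`. This is (1). (2): the numbers `n` without such a prime
are at most `X - (log .. - ε) X` by S_MER. -/
def S_FIN : Prop := ∀ K : ℕ, 4 ≤ K → ∀ ε : ℝ, 0 < ε → ∃ X₀ : ℕ, ∀ X : ℕ, X₀ ≤ X →
  (({n : ℕ | 2 ≤ n ∧ n ≤ X ∧ (∃ p : ℕ, p.Prime ∧ p ∣ n ∧ 2 * n ^ (K - 3) ≤ p ^ (K - 2)) ∧
    ∃ m : ℕ, 3 ≤ m ∧ (m ≤ K ∨ (Odd m ∧ m.minFac ≤ K)) ∧ HasAb n m}.ncard : ℕ) : ℝ) ≤ ε * X ∧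
  (({n : ℕ | 2 ≤ n ∧ n ≤ X ∧
    ∃ m : ℕ, 3 ≤ m ∧ (m ≤ K ∨ (Odd m ∧ m.minFac ≤ K)) ∧ HasAb n m}.ncard : ℕ) : ℝ) ≤
    (1 - Real.log (((K : ℝ) - 2) / ((K : ℝ) - 3)) + ε) * X

end Pool.Agent.H183.MU
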